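import Mathlib

/-!
Algebra: leading terms in `ℂ[x, x⁻¹][N]`, and the sequence `f (k+1) + f (k-1) = t f k`.
-/

open Polynomial

noncomputable section

namespace Pool.Agent.Helper293.SD

/-- `ℂ[x, x⁻¹]` -/
abbrev P := LaurentPolynomial ℂ

/-- `x^a` -/
abbrev xp (a : ℤ) : P := LaurentPolynomial.T a

/-- `t = (1 + x² + N)/x` in `ℂ[x, x⁻¹][N]` (the polynomial variable `X` is `N`) -/
def tt : P[X] := C (xp (-1)) + C (xp 1) + C (xp (-1)) * X

/-- `p` has leading term `x^a N^e`. -/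
def LT (p : P[X]) (e : ℕ) (a : ℤ) : Prop := p.natDegree ≤ e ∧ p.coeff e = xp a

/-- `up n = f (j + 1 + n)` -/
def up : ℕ → P[X]
  | 0 => 1
  | 1 => tt - C (xp 1)
  | (n + 2) => tt * up (n + 1) - up n

/-- `dn n = f (j - n)` -/
def dn : ℕ → P[X]
  | 0 => C (xp 1)
  | 1 => tt * C (xp 1) - 1
  | (n + 2) => tt * dn (n + 1) - dn n

/-- The sequence with `f (k+1) + f (k-1) = t f k`, `f j = x`, `f (j+1) = 1`. -/
def f (j : ℕ) (k : ℤ) : P[X] := if k ≤ j then dn (j - k).toNat else up (k - j - 1).toNat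

/-- The span of `f₀^i f₁^i' t^c`, `i + i' = a`, `c ≤ b`. -/
def V (j : ℕ) (a b : ℕ) : Submodule ℂ P[X] :=
  Submodule.span ℂ {z | ∃ i i' c : ℕ, i + i' = a ∧ c ≤ b ∧ z = f j 0 ^ i * f j 1 ^ i' * tt ^ c}

theorem LT.mul {p q : P[X]} {e e' : ℕ} {a a' : ℤ} (hp : LT p e a) (hq : LT q e' a') :
    LT (p * q) (e + e') (a + a') := by
  refine ⟨Polynomial.natDegree_mul_le_of_le hp.1 hq.1, ?_⟩
  rw [Polynomial.coeff_mul_add_eq_of_natDegree_le hp.1 hq.1, hp.2, hq.2, xp, xp, xp,
    LaurentPolynomial.T_add]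

theorem LT.sub_aux {p q : P[X]} {e : ℕ} {a : ℤ} (hp : LT p e a) (hq : q.natDegree < e) :
    LT (p - q) e a := by
  refine ⟨(Polynomial.natDegree_sub_le_of_le hp.1 (le_of_lt hq)).trans (max_self e).le, ?_⟩
  rw [Polynomial.coeff_sub, Polynomial.coeff_eq_zero_of_natDegree_lt hq, sub_zero, hp.2]

theorem LT.one : LT 1 0 0 := by
  refine ⟨by simp, ?_⟩
  rw [Polynomial.coeff_one_zero, xp, LaurentPolynomial.T_zero]

theorem LT.pow {p : P[X]} {e : ℕ} {a : ℤ} (hp : LT p e a) (n : ℕ) : LT (p ^ n) (n * e) (n * a) := by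
  induction n with
  | zero =>
    have := LT.one
    simpa using this
  | succ n ih =>
    have := ih.mul hp
    rw [pow_succ]
    have h1 : (n + 1) * e = n * e + e := by ring
    have h2 : ((n + 1 : ℕ) : ℤ) * a = n * a + a := by push_cast; ring
    rw [h1, h2]
    exact this

theorem tt_lt : LT tt 1 (-1) := by
  constructor
  · unfold tt
    compute_degree
  · unfold tt
    simp [Polynomial.coeff_C]

theorem X_lt : LT X 1 0 := by
  refine ⟨Polynomial.natDegree_X_le, ?_⟩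
  rw [Polynomial.coeff_X_one, xp, LaurentPolynomial.T_zero]

theorem up_lt_aux (n : ℕ) : LT (up n) n (-n) ∧ LT (up (n+1)) (n+1 : ℕ) (-(n+1 : ℕ)) := by
  induction n with
  | zero =>
    constructor
    · have := LT.one
      simpa [up] using this
    · have h := tt_lt.sub_aux (q := C (xp 1)) (by rw [Polynomial.natDegree_C]; norm_num)
      simpa [up] using h
  | succ n ih =>
    refine ⟨ih.2, ?_⟩
    have h1 := tt_lt.mul ih.2
    have h2 : up (n + 1 + 1) = tt * up (n + 1) - up n := rfl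
    rw [h2]
    have h3 : 1 + (n + 1) = n + 1 + 1 := by ring
    have h4 : (-1 : ℤ) + -((n + 1 : ℕ) : ℤ) = -((n + 1 + 1 : ℕ) : ℤ) := by push_cast; ring
    rw [h3, h4] at h1
    exact h1.sub_aux (lt_of_le_of_lt ih.1.1 (by omega))

theorem up_lt (n : ℕ) : LT (up n) n (-n) := (up_lt_aux n).1

theorem dn_lt_one : LT (dn 1) 1 0 := by
  have h0 : dn 1 = C (xp 2) + X := by
    change tt * C (xp 1) - 1 = _
    unfold tt
    have h1 : xp (-1) * xp 1 = 1 := by
      rw [xp, xp, ← LaurentPolynomial.T_add]; norm_num [LaurentPolynomial.T_zero]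
    have h2 : xp 1 * xp 1 = xp 2 := by
      rw [xp, xp, ← LaurentPolynomial.T_add]; norm_num
    calc (C (xp (-1)) + C (xp 1) + C (xp (-1)) * X) * C (xp 1) - 1
        = C (xp (-1) * xp 1) + C (xp 1 * xp 1) + C (xp (-1) * xp 1) * X - 1 := by
          rw [Polynomial.C_mul, Polynomial.C_mul]; ring
      _ = _ := by rw [h1, h2, Polynomial.C_1]; ring
  rw [h0]
  constructor
  · compute_degree
  · rw [Polynomial.coeff_add, Polynomial.coeff_X_one, Polynomial.coeff_C, if_neg one_ne_zero,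
      zero_add, xp, LaurentPolynomial.T_zero]

theorem dn_lt_aux (n : ℕ) : LT (dn n) n (1 - n) ∧ LT (dn (n+1)) (n+1 : ℕ) (1 - (n+1 : ℕ)) := by
  induction n with
  | zero =>
    constructor
    · refine ⟨?_, ?_⟩
      · change (C (xp 1)).natDegree ≤ 0
        rw [Polynomial.natDegree_C]
      · change (C (xp 1)).coeff 0 = _
        rw [Polynomial.coeff_C_zero]
        norm_num
    · have h := dn_lt_one
      simpa using h
  | succ n ih =>
    refine ⟨ih.2, ?_⟩
    have h1 := tt_lt.mul ih.2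
    have h2 : dn (n + 1 + 1) = tt * dn (n + 1) - dn n := rfl
    rw [h2]
    have h3 : 1 + (n + 1) = n + 1 + 1 := by ring
    have h4 : (-1 : ℤ) + (1 - ((n + 1 : ℕ) : ℤ)) = 1 - ((n + 1 + 1 : ℕ) : ℤ) := by push_cast; ring
    rw [h3, h4] at h1
    exact h1.sub_aux (lt_of_le_of_lt ih.1.1 (by omega))

theorem dn_lt (n : ℕ) : LT (dn n) n (1 - n) := (dn_lt_aux n).1

theorem f_lt_le (j : ℕ) (k : ℤ) (hk : k ≤ j) : LT (f j k) (j - k).toNat (1 - (j - k)) := by
  unfold f
  rw [if_pos hk]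
  have h := dn_lt (j - k).toNat
  have h2 : (((j : ℤ) - k).toNat : ℤ) = j - k := Int.toNat_of_nonneg (by omega)
  rw [h2] at h
  exact h

theorem f_lt_gt (j : ℕ) (k : ℤ) (hk : (j : ℤ) + 1 ≤ k) :
    LT (f j k) (k - j - 1).toNat (-(k - j - 1)) := by
  unfold f
  rw [if_neg (by omega)]
  have h := up_lt (k - j - 1).toNat
  have h2 : ((k - (j : ℤ) - 1).toNat : ℤ) = k - j - 1 := Int.toNat_of_nonneg (by omega)
  rw [h2] at h
  exact h


theorem f_dn (j n : ℕ) (k : ℤ) (h : k = j - n) : f j k = dn n := by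
  unfold f
  rw [if_pos (by omega)]
  congr 1
  omega

theorem f_up (j n : ℕ) (k : ℤ) (h : k = j + 1 + n) : f j k = up n := by
  unfold f
  rw [if_neg (by omega)]
  congr 1
  omega

theorem f_rec (j : ℕ) (k : ℤ) : f j (k + 1) + f j (k - 1) = tt * f j k := by
  rcases lt_trichotomy k (j : ℤ) with h | h | h
  · obtain ⟨n, hn⟩ : ∃ n : ℕ, (n : ℤ) = j - k - 1 := ⟨(j - k - 1).toNat, by omega⟩
    rw [f_dn j n (k + 1) (by omega), f_dn j (n + 2) (k - 1) (by push_cast; omega),
      f_dn j (n + 1) k (by push_cast; omega), dn]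
    ring
  · rw [f_up j 0 (k + 1) (by omega), f_dn j 1 (k - 1) (by omega), f_dn j 0 k (by omega), up, dn, dn]
    ring
  · rcases eq_or_lt_of_le (by omega : (j : ℤ) + 1 ≤ k) with h' | h'
    · rw [f_up j 1 (k + 1) (by omega), f_dn j 0 (k - 1) (by omega), f_up j 0 k (by omega), up, up, dn]
      ring
    · obtain ⟨n, hn⟩ : ∃ n : ℕ, (n : ℤ) = k - j - 2 := ⟨(k - j - 2).toNat, by omega⟩
      rw [f_up j (n + 2) (k + 1) (by push_cast; omega), f_up j n (k - 1) (by omega),
        f_up j (n + 1) k (by push_cast; omega), up]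
      ring

theorem f_mul_step (j : ℕ) (k : ℤ) :
    f j (k - 1) * f j (k + 1) - f j k ^ 2 = f j k * f j (k + 2) - f j (k + 1) ^ 2 := by
  have h1 := f_rec j k
  have h2 := f_rec j (k + 1)
  have e1 : k + 1 + 1 = k + 2 := by ring
  have e2 : k + 1 - 1 = k := by ring
  rw [e1, e2] at h2
  have h3 : f j (k - 1) = tt * f j k - f j (k + 1) := by rw [← h1]; ring
  have h4 : f j (k + 2) = tt * f j (k + 1) - f j k := by rw [← h2]; ring
  rw [h3, h4]
  ring

theorem f_mul (j : ℕ) (k : ℤ) : f j (k - 1) * f j (k + 1) = f j k ^ 2 + X := by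
  have hx : (C (xp 1) : P[X]) * C (xp (-1)) = 1 := by
    rw [← C_mul]
    have : (xp 1 : P) * xp (-1) = 1 := by
      rw [← LaurentPolynomial.T_add]
      simp
    rw [this, C_1]
  have hbase : f j ((j : ℤ) + 1 - 1) * f j ((j : ℤ) + 1 + 1) - f j ((j : ℤ) + 1) ^ 2 = X := by
    rw [f_dn j 0 _ (by omega), f_up j 1 _ (by omega), f_up j 0 _ (by omega), dn, up, up]
    unfold tt
    have : (C (xp 1) : P[X]) * (C (xp (-1)) + C (xp 1) + C (xp (-1)) * X - C (xp 1)) - 1 ^ 2
        = (C (xp 1) * C (xp (-1))) * (1 + X) - 1 := by ring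
    rw [this, hx]
    ring
  have key : f j (k - 1) * f j (k + 1) - f j k ^ 2 = X := by
    induction k using Int.inductionOn' (b := (j : ℤ) + 1) with
    | zero => exact hbase
    | succ k hk ih =>
      have h := f_mul_step j k
      rw [ih] at h
      have e1 : k + 1 - 1 = k := by ring
      have e2 : k + 1 + 1 = k + 2 := by ring
      rw [e1, e2]
      exact h.symm
    | pred k hk ih =>
      have h := f_mul_step j (k - 1)
      have e1 : k - 1 + 1 = k := by ring
      have e2 : k - 1 + 2 = k + 1 := by ring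
      rw [e1, e2, ih] at h
      rw [e1]
      exact h
  rw [← key]
  ring

theorem V_mono (j : ℕ) {a b b' : ℕ} (h : b ≤ b') : V j a b ≤ V j a b' := by
  apply Submodule.span_mono
  rintro z ⟨i, i', c, h1, h2, h3⟩
  exact ⟨i, i', c, h1, h2.trans h, h3⟩

theorem V_mul (j : ℕ) {a b a' b' : ℕ} {p q : P[X]} (hp : p ∈ V j a b) (hq : q ∈ V j a' b') :
    p * q ∈ V j (a + a') (b + b') := by
  have h := Submodule.mul_mem_mul hp hq
  unfold V at h
  rw [Submodule.span_mul_span] at h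
  refine (Submodule.span_le.2 ?_) h
  rintro _ ⟨z, ⟨i, i', c, h1, h2, rfl⟩, w, ⟨k, k', e, h3, h4, rfl⟩, rfl⟩
  apply Submodule.subset_span
  refine ⟨i + k, i' + k', c + e, by omega, by omega, ?_⟩
  simp only
  ring

theorem V_one (j : ℕ) : 1 ∈ V j 0 0 := by
  apply Submodule.subset_span
  exact ⟨0, 0, 0, rfl, le_rfl, by simp⟩

theorem V_pow (j : ℕ) {a b : ℕ} {p : P[X]} (hp : p ∈ V j a b) (n : ℕ) :
    p ^ n ∈ V j (n * a) (n * b) := by
  induction n with
  | zero => simpa using V_one j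
  | succ n ih =>
    rw [pow_succ, Nat.succ_mul, Nat.succ_mul]
    exact V_mul j ih hp

theorem tt_mem (j : ℕ) : tt ∈ V j 0 1 := by
  apply Submodule.subset_span
  exact ⟨0, 0, 1, rfl, le_rfl, by simp⟩

theorem X_mem (j : ℕ) : X ∈ V j 2 1 := by
  have h1 := f_mul j 1
  have h2 := f_rec j 1
  have e1 : (1 : ℤ) - 1 = 0 := by norm_num
  have e2 : (1 : ℤ) + 1 = 2 := by norm_num
  rw [e1, e2] at h1 h2
  have h3 : f j 2 = tt * f j 1 - f j 0 := by rw [← h2]; ring
  have h4 : (X : P[X]) = f j 0 ^ 1 * f j 1 ^ 1 * tt ^ 1 - f j 0 ^ 2 * f j 1 ^ 0 * tt ^ 0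
      - f j 0 ^ 0 * f j 1 ^ 2 * tt ^ 0 := by
    have : (X : P[X]) = f j 0 * f j 2 - f j 1 ^ 2 := by rw [h1]; ring
    rw [this, h3]
    ring
  rw [h4]
  refine Submodule.sub_mem _ (Submodule.sub_mem _ ?_ ?_) ?_
  · exact Submodule.subset_span ⟨1, 1, 1, rfl, le_rfl, rfl⟩
  · exact Submodule.subset_span ⟨2, 0, 0, rfl, by omega, rfl⟩
  · exact Submodule.subset_span ⟨0, 2, 0, rfl, by omega, rfl⟩

theorem f0_mem (j : ℕ) : f j 0 ∈ V j 1 0 := by
  apply Submodule.subset_span
  exact ⟨1, 0, 0, rfl, le_rfl, by simp⟩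

theorem f1_mem (j : ℕ) : f j 1 ∈ V j 1 0 := by
  apply Submodule.subset_span
  exact ⟨0, 1, 0, rfl, le_rfl, by simp⟩

theorem f_mem_step (j : ℕ) (n : ℕ) {p q : P[X]} (hp : p ∈ V j 1 n) (hq : q ∈ V j 1 (n + 1)) :
    tt * q - p ∈ V j 1 (n + 2) := by
  refine Submodule.sub_mem _ ?_ (V_mono j (by omega) hp)
  have h := V_mul j (tt_mem j) hq
  have e1 : 0 + 1 = 1 := rfl
  have e2 : 1 + (n + 1) = n + 2 := by omega
  rw [e2] at h
  exact h

theorem f_mem_step0 (j : ℕ) {p q : P[X]} (hp : p ∈ V j 1 0) (hq : q ∈ V j 1 0) :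
    tt * q - p ∈ V j 1 1 := by
  refine Submodule.sub_mem _ ?_ (V_mono j (by omega) hp)
  have h := V_mul j (tt_mem j) hq
  have e1 : 0 + 1 = 1 := rfl
  rw [e1] at h
  exact h

theorem f_mem_pos_aux (j : ℕ) (n : ℕ) : f j ((n : ℤ) + 1) ∈ V j 1 n ∧ f j ((n : ℤ) + 2) ∈ V j 1 (n + 1) := by
  induction n with
  | zero =>
    constructor
    · simpa using f1_mem j
    · have h2 := f_rec j 1
      have e1 : (1 : ℤ) - 1 = 0 := by norm_num
      have e2 : (1 : ℤ) + 1 = 2 := by norm_num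
      rw [e1, e2] at h2
      have h3 : f j 2 = tt * f j 1 - f j 0 := by rw [← h2]; ring
      have := f_mem_step0 j (f0_mem j) (f1_mem j)
      rw [← h3] at this
      simpa using this
  | succ n ih =>
    constructor
    · have := ih.2
      push_cast
      rw [show (n : ℤ) + 1 + 1 = n + 2 by ring]
      exact this
    · have h2 := f_rec j ((n : ℤ) + 2)
      rw [show (n : ℤ) + 2 - 1 = n + 1 by ring] at h2
      have h3 : f j ((n : ℤ) + 2 + 1) = tt * f j ((n : ℤ) + 2) - f j ((n : ℤ) + 1) := by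
        rw [← h2]; ring
      push_cast
      rw [show (n : ℤ) + 1 + 2 = n + 2 + 1 by ring, h3]
      exact f_mem_step j n ih.1 ih.2

theorem f_mem_neg_aux (j : ℕ) (n : ℕ) : f j (-(n : ℤ)) ∈ V j 1 n ∧ f j (-(n : ℤ) - 1) ∈ V j 1 (n + 1) := by
  induction n with
  | zero =>
    constructor
    · simpa using f0_mem j
    · have h2 := f_rec j 0
      rw [zero_add] at h2
      have h3 : f j (0 - 1) = tt * f j 0 - f j 1 := by rw [← h2]; ring
      have := f_mem_step0 j (f1_mem j) (f0_mem j)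
      rw [← h3] at this
      simpa using this
  | succ n ih =>
    constructor
    · have := ih.2
      push_cast
      rw [show -((n : ℤ) + 1) = -n - 1 by ring]
      exact this
    · have h2 := f_rec j (-(n : ℤ) - 1)
      rw [show -(n : ℤ) - 1 + 1 = -n by ring] at h2
      have h3 : f j (-(n : ℤ) - 1 - 1) = tt * f j (-(n : ℤ) - 1) - f j (-(n : ℤ)) := by
        rw [← h2]; ring
      push_cast
      rw [show -((n : ℤ) + 1) - 1 = -n - 1 - 1 by ring, h3]
      exact f_mem_step j n ih.1 ih.2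

theorem f_mem_pos (j : ℕ) (k : ℤ) (hk : 1 ≤ k) : f j k ∈ V j 1 (k - 1).toNat := by
  obtain ⟨n, hn⟩ : ∃ n : ℕ, (n : ℤ) = k - 1 := ⟨(k - 1).toNat, by omega⟩
  have h := (f_mem_pos_aux j n).1
  rw [show (n : ℤ) + 1 = k by omega] at h
  rwa [show (k - 1).toNat = n by omega]

theorem f_mem_neg (j : ℕ) (k : ℤ) (hk : k ≤ 0) : f j k ∈ V j 1 (-k).toNat := by
  obtain ⟨n, hn⟩ : ∃ n : ℕ, (n : ℤ) = -k := ⟨(-k).toNat, by omega⟩
  have h := (f_mem_neg_aux j n).1
  rw [show -(n : ℤ) = k by omega] at h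
  rwa [show (-k).toNat = n by omega]



theorem gen_H (j : ℕ) (k : ℤ) (A B n e1 e2 d1 d2 : ℕ) (a1 a2 : ℤ)
    (h1 : LT (f j k) e1 a1) (h2 : LT (f j (k + 1)) e2 a2)
    (v1 : f j k ∈ V j 1 d1) (v2 : f j (k + 1) ∈ V j 1 d2) (m : ℕ)
    (hm : A + B + 2 * n = 2 * m) (hd : A * d1 + B * d2 + n ≤ 2 * m) (α β : ℤ)
    (he : ((A * e1 + B * e2 + n : ℕ) : ℤ) = m - α) (ha : (A : ℤ) * a1 + B * a2 = α + β) :
    ∃ H ∈ V j (2 * m) (2 * m), ∃ e : ℕ, (e : ℤ) = m - α ∧ LT H e (α + β) := by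
  refine ⟨f j k ^ A * f j (k + 1) ^ B * X ^ n, ?_, A * e1 + B * e2 + n, he, ?_⟩
  · have h3 := V_mul j (V_mul j (V_pow j v1 A) (V_pow j v2 B)) (V_pow j (X_mem j) n)
    have h4 : A * 1 + B * 1 + n * 2 = 2 * m := by omega
    rw [h4] at h3
    refine V_mono j ?_ h3
    rw [mul_one]
    exact hd
  · have h3 := ((h1.pow A).mul (h2.pow B)).mul (X_lt.pow n)
    rw [mul_one, mul_zero, add_zero, ha] at h3
    exact h3

theorem gen_HZ (j : ℕ) (k : ℤ) (A B n e1 e2 d1 d2 : ℤ) (hA : 0 ≤ A) (hB : 0 ≤ B) (hn : 0 ≤ n)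
    (he1 : 0 ≤ e1) (he2 : 0 ≤ e2) (hd1 : 0 ≤ d1) (hd2 : 0 ≤ d2) (a1 a2 : ℤ)
    (h1 : LT (f j k) e1.toNat a1) (h2 : LT (f j (k + 1)) e2.toNat a2)
    (v1 : f j k ∈ V j 1 d1.toNat) (v2 : f j (k + 1) ∈ V j 1 d2.toNat) (m : ℕ)
    (hm : A + B + 2 * n = 2 * m) (hd : A * d1 + B * d2 + n ≤ 2 * m) (α β : ℤ)
    (he : A * e1 + B * e2 + n = m - α) (ha : A * a1 + B * a2 = α + β) :
    ∃ H ∈ V j (2 * m) (2 * m), ∃ e : ℕ, (e : ℤ) = m - α ∧ LT H e (α + β) := by
  lift A to ℕ using hA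
  lift B to ℕ using hB
  lift n to ℕ using hn
  lift e1 to ℕ using he1
  lift e2 to ℕ using he2
  lift d1 to ℕ using hd1
  lift d2 to ℕ using hd2
  rw [Int.toNat_natCast] at h1 h2 v1 v2
  exact gen_H j k A B n e1 e2 d1 d2 a1 a2 h1 h2 v1 v2 m (by exact_mod_cast hm)
    (by exact_mod_cast hd) α β (by push_cast; exact he) ha

theorem gen_II (j : ℕ) (hj : 3 ≤ j) (m : ℕ) (α β : ℤ)
    (h3 : (2 * j - 2) * α - β ≤ m) (hα : β ≤ α) (hα' : -β ≤ α) :
    ∃ H ∈ V j (2 * m) (2 * m), ∃ e : ℕ, (e : ℤ) = m - α ∧ LT H e (α + β) := by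
  have hj' : (3 : ℤ) ≤ j := by exact_mod_cast hj
  have hα0 : 0 ≤ α := by linarith
  have hn : α ≤ m := by nlinarith [mul_nonneg (sub_nonneg.2 hj') hα0]
  have hl1 := f_lt_le j j le_rfl
  have hl2 := f_lt_gt j (j + 1) le_rfl
  have hv1 := f_mem_pos j j (by linarith)
  have hv2 := f_mem_pos j (j + 1) (by linarith)
  refine gen_HZ j j (α + β) (α - β) (m - α) (j - j) (j + 1 - j - 1) (j - 1) (j + 1 - 1)
    (by linarith) (by linarith) (by linarith) (by linarith) (by linarith) (by linarith)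
    (by linarith) _ _ hl1 hl2 hv1 hv2 m (by ring) ?_ α β (by ring) (by ring)
  nlinarith

/-- TARGET. For every lattice point `(α, β)` of the polygon there is an element of `V j (2m) (2m)`
with leading term `x^(α+β) N^(m-α)`. -/
theorem exists_H (j : ℕ) (hj : 3 ≤ j) (m : ℕ) (α β : ℤ) (h1 : β ≤ m)
    (h2 : α + (2 * j - 4) * β ≤ m) (h3 : (2 * j - 2) * α - β ≤ m)
    (h4 : -(2 * j * β) - α ≤ m) :
    ∃ H ∈ V j (2 * m) (2 * m), ∃ e : ℕ, (e : ℤ) = m - α ∧ LT H e (α + β) := by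
  have hj' : (3 : ℤ) ≤ j := by exact_mod_cast hj
  rcases lt_trichotomy β 0 with hβ | hβ | hβ
  · -- β < 0
    by_cases hα : α ≤ -β
    · -- III
      have hβ' : 0 < -2 * β := by linarith
      have hr := Int.emod_add_mul_ediv (-(2 * j + 1) * β - α) (-2 * β)
      have hr0 := Int.emod_nonneg (-(2 * j + 1) * β - α) hβ'.ne'
      have hr1 := Int.emod_lt_of_pos (-(2 * j + 1) * β - α) hβ'
      have hq : (j : ℤ) ≤ (-(2 * j + 1) * β - α) / (-2 * β) := by
        apply Int.le_ediv_of_mul_le hβ'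
        linarith
      generalize (-(2 * (j : ℤ) + 1) * β - α) / (-2 * β) = q at *
      generalize (-(2 * (j : ℤ) + 1) * β - α) % (-2 * β) = r at *
      have hn : 0 ≤ (m : ℤ) + β := by nlinarith [mul_nonneg (sub_nonneg.2 hj') (neg_nonneg.2 hβ.le)]
      have hl1 := f_lt_gt j (q + 1) (by linarith)
      have hl2 := f_lt_gt j (q + 1 + 1) (by linarith)
      have hv1 := f_mem_pos j (q + 1) (by linarith)
      have hv2 := f_mem_pos j (q + 1 + 1) (by linarith)
      refine gen_HZ j (q + 1) (-2 * β - r) r (m + β) (q + 1 - j - 1) (q + 1 + 1 - j - 1)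
        (q + 1 - 1) (q + 1 + 1 - 1) (by linarith) hr0 hn (by linarith) (by linarith)
        (by linarith) (by linarith) _ _ hl1 hl2 hv1 hv2 m (by ring) ?_ α β ?_ ?_
      · have : (-2 * β - r) * (q + 1 - 1) + r * (q + 1 + 1 - 1) + (m + β) =
            -(2 * j * β) - α + m := by linear_combination hr
        linarith
      · linear_combination hr
      · linear_combination (-1) * hr
    · exact gen_II j hj m α β h3 (by linarith) (by linarith)
  · -- β = 0
    subst hβ
    by_cases hα : α ≤ 0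
    · obtain ⟨a, ha⟩ := Int.eq_ofNat_of_zero_le (neg_nonneg.2 hα)
      have ha' : α = -(a : ℤ) := by linarith
      subst ha'
      refine ⟨tt ^ a * X ^ m, ?_, a * 1 + m * 1, ?_, ?_⟩
      · have h5 := V_mul j (V_pow j (tt_mem j) a) (V_pow j (X_mem j) m)
        have h6 : a * 0 + m * 2 = 2 * m := by omega
        rw [h6] at h5
        refine V_mono j ?_ h5
        have h7 : (a : ℤ) ≤ m := by linarith
        have h8 : a ≤ m := by exact_mod_cast h7
        omega
      · push_cast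
        ring
      · have h5 := (tt_lt.pow a).mul (X_lt.pow m)
        have h6 : (a : ℤ) * (-1) + m * 0 = -(a : ℤ) + 0 := by ring
        rw [h6] at h5
        exact h5
    · exact gen_II j hj m α 0 h3 (by linarith) (by linarith)
  · -- β > 0
    have hβ' : 0 < 2 * β := by linarith
    by_cases hα : β ≤ α
    · exact gen_II j hj m α β h3 hα (by linarith)
    by_cases hα2 : -(2 * j - 3) * β ≤ α
    · -- I
      have hr := Int.emod_add_mul_ediv (α + (2 * j - 3) * β) (2 * β)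
      have hr0 := Int.emod_nonneg (α + (2 * j - 3) * β) hβ'.ne'
      have hr1 := Int.emod_lt_of_pos (α + (2 * j - 3) * β) hβ'
      have hq0 : 0 ≤ (α + (2 * j - 3) * β) / (2 * β) := Int.ediv_nonneg (by linarith) hβ'.le
      have hq : (α + (2 * j - 3) * β) / (2 * β) < (j : ℤ) - 1 := by
        apply Int.ediv_lt_of_lt_mul hβ'
        rw [not_le] at hα
        linarith
      generalize (α + (2 * (j : ℤ) - 3) * β) / (2 * β) = q at *
      generalize (α + (2 * (j : ℤ) - 3) * β) % (2 * β) = r at *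
      have hl1 := f_lt_le j (q + 1) (by linarith)
      have hl2 := f_lt_le j (q + 1 + 1) (by linarith)
      have hv1 := f_mem_pos j (q + 1) (by linarith)
      have hv2 := f_mem_pos j (q + 1 + 1) (by linarith)
      refine gen_HZ j (q + 1) (2 * β - r) r (m - β) (j - (q + 1)) (j - (q + 1 + 1))
        (q + 1 - 1) (q + 1 + 1 - 1) (by linarith) hr0 (by linarith) (by linarith) (by linarith)
        (by linarith) (by linarith) _ _ hl1 hl2 hv1 hv2 m (by ring) ?_ α β ?_ ?_
      · have : (2 * β - r) * (q + 1 - 1) + r * (q + 1 + 1 - 1) + (m - β) =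
            α + (2 * j - 4) * β + m := by linear_combination hr
        linarith
      · linear_combination (-1) * hr
      · linear_combination hr
    by_cases hα3 : -(2 * j - 1) * β ≤ α
    · -- V
      have hl1 := f_lt_le j 0 (by linarith)
      have hl2 := f_lt_le j (0 + 1) (by linarith)
      have hv1 := f_mem_neg j 0 le_rfl
      have hv2 := f_mem_pos j (0 + 1) (by linarith)
      rw [not_le] at hα2
      refine gen_HZ j 0 (β - (α + (2 * j - 2) * β)) (β + (α + (2 * j - 2) * β)) (m - β)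
        (j - 0) (j - (0 + 1)) (-0) (0 + 1 - 1) (by linarith) (by linarith) (by linarith)
        (by linarith) (by linarith) (by linarith) (by linarith) _ _ hl1 hl2 hv1 hv2 m (by ring)
        ?_ α β (by ring) (by ring)
      have : (β - (α + (2 * (j : ℤ) - 2) * β)) * (-0) + (β + (α + (2 * j - 2) * β)) * (0 + 1 - 1)
          + ((m : ℤ) - β) = m - β := by ring
      rw [this]
      have : (0 : ℤ) ≤ m := Int.natCast_nonneg m
      linarith
    · -- IV
      rw [not_le] at hα3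
      have hr := Int.emod_add_mul_ediv (-(2 * j - 1) * β - α) (2 * β)
      have hr0 := Int.emod_nonneg (-(2 * j - 1) * β - α) hβ'.ne'
      have hr1 := Int.emod_lt_of_pos (-(2 * j - 1) * β - α) hβ'
      have hq0 : 0 ≤ (-(2 * j - 1) * β - α) / (2 * β) := Int.ediv_nonneg (by linarith) hβ'.le
      generalize (-(2 * (j : ℤ) - 1) * β - α) / (2 * β) = q at *
      generalize (-(2 * (j : ℤ) - 1) * β - α) % (2 * β) = r at *
      have hl1 := f_lt_le j (-q - 1) (by linarith)
      have hl2 := f_lt_le j (-q - 1 + 1) (by linarith)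
      have hv1 := f_mem_neg j (-q - 1) (by linarith)
      have hv2 := f_mem_neg j (-q - 1 + 1) (by linarith)
      refine gen_HZ j (-q - 1) r (2 * β - r) (m - β) (j - (-q - 1)) (j - (-q - 1 + 1))
        (-(-q - 1)) (-(-q - 1 + 1)) hr0 (by linarith) (by linarith) (by linarith) (by linarith)
        (by linarith) (by linarith) _ _ hl1 hl2 hv1 hv2 m (by ring) ?_ α β ?_ ?_
      · have : r * (-(-q - 1)) + (2 * β - r) * (-(-q - 1 + 1)) + (m - β) =
            -(2 * j * β) - α + m := by linear_combination hr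
        linarith
      · linear_combination hr
      · linear_combination (-1) * hr


theorem coeff_sum_top {ι : Type} [Fintype ι] (H : ι → P[X]) (e : ι → ℕ) (a : ι → ℤ)
    (hLT : ∀ i, LT (H i) (e i) (a i)) (c : ι → ℂ) (N : ℕ) (hN : ∀ i, c i ≠ 0 → e i ≤ N) :
    (∑ i, c i • H i).coeff N = ∑ i, if e i = N then c i • xp (a i) else 0 := by
  rw [Polynomial.finsetSum_coeff]
  apply Finset.sum_congr rfl
  intro i _
  rw [Polynomial.coeff_smul]
  obtain ⟨h1, h2⟩ := hLT i
  split_ifs with h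
  · rw [← h, h2]
  · by_cases hc : c i = 0
    · rw [hc, zero_smul]
    · have h3 := hN i hc
      have h4 : (H i).natDegree < N := lt_of_le_of_lt h1 (lt_of_le_of_ne h3 h)
      rw [Polynomial.coeff_eq_zero_of_natDegree_lt h4, smul_zero]

theorem coeff_top_ne {ι : Type} [Fintype ι] (e : ι → ℕ) (a : ι → ℤ)
    (hinj : ∀ i i', e i = e i' → a i = a i' → i = i') (c : ι → ℂ) (i₀ : ι) (h : c i₀ ≠ 0) :
    (∑ i, if e i = e i₀ then c i • xp (a i) else 0) ≠ 0 := by
  classical
  intro h0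
  have h1 := congrArg (fun p : P => p.coeff (a i₀)) h0
  have h2 : (∑ i, if e i = e i₀ then c i • xp (a i) else 0 : P).coeff (a i₀) =
      ∑ i, if i = i₀ then c i₀ else 0 := by
    rw [AddMonoidAlgebra.coeff_sum, Finsupp.finsetSum_apply]
    apply Finset.sum_congr rfl
    intro i _
    split_ifs with g1 g2 g2
    · rw [g2]
      simp [xp]
    · have g3 : a i ≠ a i₀ := fun g3 => g2 (hinj i i₀ g1 g3)
      simp [xp, g3]
    · exact absurd (by rw [g2]) g1
    · simp
  have h3 : (∑ i, if e i = e i₀ then c i • xp (a i) else 0 : P).coeff (a i₀) =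
    (0 : P).coeff (a i₀) := h1
  rw [h2] at h3
  simp at h3
  exact h h3

/-- The `N`-degree of a combination is the maximum of the degrees. -/
theorem deg_sum_le {ι : Type} [Fintype ι] (H : ι → P[X]) (e : ι → ℕ) (a : ι → ℤ)
    (hLT : ∀ i, LT (H i) (e i) (a i)) (hinj : ∀ i i', e i = e i' → a i = a i' → i = i')
    (c : ι → ℂ) (N : ℤ) :
    (∀ k : ℕ, (∑ i, c i • H i).coeff k ≠ 0 → (k : ℤ) ≤ N) ↔ ∀ i, c i ≠ 0 → (e i : ℤ) ≤ N := by
  classical
  constructor
  · intro h i hi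
    obtain ⟨i₀, h1, h2⟩ := (Finset.univ.filter (fun i => c i ≠ 0)).exists_max_image e
      ⟨i, by simp [hi]⟩
    rw [Finset.mem_filter] at h1
    have h3 : ∀ j, c j ≠ 0 → e j ≤ e i₀ := fun j hj => h2 j (by simp [hj])
    have h4 : (∑ i, c i • H i).coeff (e i₀) ≠ 0 := by
      rw [coeff_sum_top H e a hLT c (e i₀) h3]
      exact coeff_top_ne e a hinj c i₀ h1.2
    have h5 := h (e i₀) h4
    have h6 := h3 i hi
    have h7 : (e i : ℤ) ≤ e i₀ := by exact_mod_cast h6
    exact h7.trans h5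
  · intro h k hk
    by_contra hkN
    push Not at hkN
    apply hk
    rw [Polynomial.finsetSum_coeff]
    apply Finset.sum_eq_zero
    intro i _
    rw [Polynomial.coeff_smul]
    by_cases hc : c i = 0
    · rw [hc, zero_smul]
    · have h1 := h i hc
      have h2 : e i < k := by
        have : (e i : ℤ) < k := lt_of_le_of_lt h1 hkN
        exact_mod_cast this
      rw [Polynomial.coeff_eq_zero_of_natDegree_lt (lt_of_le_of_lt (hLT i).1 h2), smul_zero]

theorem lt_indep {ι : Type} (H : ι → P[X]) (e : ι → ℕ) (a : ι → ℤ)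
    (hLT : ∀ i, LT (H i) (e i) (a i)) (hinj : ∀ i i', e i = e i' → a i = a i' → i = i') :
    LinearIndependent ℂ H := by
  classical
  rw [linearIndependent_iff']
  intro s g hs i hi
  by_contra hgi
  obtain ⟨i₀, h1, h2⟩ := (s.filter (fun i => g i ≠ 0)).exists_max_image e
      ⟨i, by simp [hi, hgi]⟩
  rw [Finset.mem_filter] at h1
  have h3 : ∀ j : s, g j ≠ 0 → e j ≤ e i₀ := fun j hj => h2 j (by simp [hj])
  have h4 := coeff_sum_top (fun j : s => H j) (fun j : s => e j) (fun j : s => a j)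
    (fun j => hLT j) (fun j : s => g j) (e i₀) h3
  have h5 := coeff_top_ne (fun j : s => e j) (fun j : s => a j)
    (fun j j' k1 k2 => Subtype.ext (hinj j j' k1 k2)) (fun j : s => g j) ⟨i₀, h1.1⟩ h1.2
  apply h5
  rw [← h4]
  have h6 : ∑ j : s, g j • H j = 0 := by
    rw [Finset.sum_coe_sort s (fun j => g j • H j)]
    exact hs
  rw [h6, Polynomial.coeff_zero]


end Pool.Agent.Helper293.SD
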