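import Mathlib

/-!
Gordan's lemma and a piecewise linear injection.
-/

namespace Pool.Agent.Helper293.SD

/-- Gordan's lemma (for a pointed cone given by finitely many integral linear forms). -/
theorem gordan {r : ℕ} {G : Type} [AddCommGroup G] (L : Fin r → G →+ ℤ)
    (hinj : ∀ x, (∀ i, L i x = 0) → x = 0) :
    ∃ (n : ℕ) (g : Fin n → G), (∀ k i, 0 ≤ L i (g k)) ∧
      ∀ x, (∀ i, 0 ≤ L i x) → ∃ a : Fin n → ℕ, x = ∑ k, a k • g k := by
  classical
  let f : G → Fin r → ℕ := fun x i => (L i x).toNat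
  have hf : ∀ x, (∀ i, 0 ≤ L i x) → ∀ i, ((f x i : ℕ) : ℤ) = L i x :=
    fun x hx i => Int.toNat_of_nonneg (hx i)
  let P : (Fin r → ℕ) → Prop := fun v => ∃ x, x ≠ 0 ∧ (∀ i, 0 ≤ L i x) ∧ f x = v
  have hfin : {v | Minimal P v}.Finite :=
    WellQuasiOrderedLE.finite_of_isAntichain (setOfPred_minimal_antichain P)
  let s : Finset (Fin r → ℕ) := hfin.toFinset
  have hs : ∀ v, v ∈ s ↔ Minimal P v := fun v => by simp [s]
  have hrep : ∀ v : s, ∃ x, x ≠ 0 ∧ (∀ i, 0 ≤ L i x) ∧ f x = v.1 :=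
    fun v => ((hs v.1).1 v.2).prop
  choose g hg0 hgc hgf using hrep
  refine ⟨s.card, fun k => g (s.equivFin.symm k), fun k i => hgc _ i, ?_⟩
  intro x hx
  induction hN : ∑ i, f x i using Nat.strong_induction_on generalizing x with
  | _ N ih =>
    by_cases hx0 : x = 0
    · exact ⟨0, by simp [hx0]⟩
    · obtain ⟨v, hvle, hvmin⟩ := exists_minimal_le_of_wellFoundedLT P (f x) ⟨x, hx0, hx, rfl⟩
      have hv : v ∈ s := (hs v).2 hvmin
      set y := g ⟨v, hv⟩ with hy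
      have hyL : ∀ i, L i y = (v i : ℤ) := by
        intro i
        rw [← hf y (hgc _) i, hgf ⟨v, hv⟩]
      have hxy : ∀ i, 0 ≤ L i (x - y) := by
        intro i
        rw [map_sub, hyL, ← hf x hx i]
        have hh : v i ≤ f x i := hvle i
        omega
      have hlt : ∑ i, f (x - y) i < N := by
        rw [← hN]
        obtain ⟨i0, hi0⟩ : ∃ i, L i y ≠ 0 := by
          by_contra hcon
          push Not at hcon
          exact hg0 ⟨v, hv⟩ (hinj _ hcon)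
        have key : ∀ i, ((f (x - y) i : ℕ) : ℤ) = f x i - v i := by
          intro i
          rw [hf _ hxy i, map_sub, hyL, ← hf x hx i]
        refine Finset.sum_lt_sum (fun i _ => ?_) ⟨i0, Finset.mem_univ _, ?_⟩
        · have := key i; omega
        · have h1 := key i0
          rw [hyL] at hi0
          omega
      obtain ⟨a, ha⟩ := ih _ hlt (x - y) hxy rfl
      refine ⟨a + Pi.single (s.equivFin ⟨v, hv⟩) 1, ?_⟩
      simp only [Pi.add_apply, add_smul, Finset.sum_add_distrib]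
      rw [← ha, Finset.sum_eq_single (s.equivFin ⟨v, hv⟩)]
      · simp [hy]
      · intro k _ hk
        rw [Pi.single_eq_of_ne hk, zero_smul]
      · intro h; exact absurd (Finset.mem_univ _) h

theorem exists_theta_key (j : ℤ) (θ : ℤ × ℤ → ℤ × ℤ)
    (hθ : θ = fun p => if p.2 ≤ p.1 ∧ p.2 ≤ -p.1 then (p.1 + (2*j-2)*p.2, -p.2)
      else if p.1 ≤ 0 then (2*j*p.1 - p.2, -p.1)
      else if p.2 ≤ (2*j-3)*p.1 then (p.2 - (2*j-4)*p.1, p.1)
      else if p.2 ≤ (2*j-1)*p.1 then (p.1, (2*j-2)*p.1 - p.2)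
      else (2*j*p.1 - p.2, -p.1)) (u v α β : ℤ) (h : θ (u, v) = (α, β)) :
    (0 ≤ β ∧ -(2*(j*β)) + β ≤ α ∧ α ≤ -(2*(j*β)) + 3*β ∧ u = α + 2*(j*β) - 2*β ∧ v = -β) ∨
    (0 ≤ β ∧ α < -(2*(j*β)) + β ∧ u = -β ∧ v = -(2*(j*β)) - α) ∨
    (0 < β ∧ -(2*(j*β)) + 3*β < α ∧ α ≤ β ∧ u = β ∧ v = α + 2*(j*β) - 4*β) ∨
    (0 < α ∧ -α ≤ β ∧ β < α ∧ u = α ∧ v = 2*(j*α) - 2*α - β) ∨
    (β < 0 ∧ α < -β ∧ u = -β ∧ v = -(2*(j*β)) - α) := by
  rw [hθ] at h
  dsimp only at h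
  split_ifs at h with h1 h2 h3 h4 <;> rw [Prod.mk.injEq] at h <;> obtain ⟨ha, hb⟩ := h
  · left
    obtain ⟨h1a, h1b⟩ := h1
    subst ha hb
    have e : j * -v = -(j * v) := by ring
    rw [e]
    refine ⟨by linarith, ?_, ?_, ?_, by ring⟩ <;> linarith
  · right; left
    subst ha hb
    have e : j * -u = -(j * u) := by ring
    rw [e]
    have h1' : u < v := by
      by_contra hc
      push Not at hc
      exact h1 ⟨hc, by linarith⟩
    refine ⟨by linarith, ?_, by ring, ?_⟩ <;> linarith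
  · right; right; left
    subst ha hb
    push Not at h2
    have h1' : -u < v := by
      by_contra hc
      push Not at hc
      exact h1 ⟨by linarith, hc⟩
    refine ⟨by linarith, ?_, ?_, rfl, ?_⟩ <;> linarith
  · right; right; right; left
    subst ha hb
    push Not at h2 h3
    refine ⟨by linarith, ?_, ?_, rfl, ?_⟩ <;> linarith
  · right; right; right; right
    subst ha hb
    push Not at h2 h4
    have e : j * -u = -(j * u) := by ring
    rw [e]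
    refine ⟨by linarith, ?_, by ring, ?_⟩ <;> linarith

/-- A piecewise linear injection `ℤ² → ℤ²` which maps the box `|u|, |v| ≤ m` into the
polygon `β ≤ m`, `α + (2j-4)β ≤ m`, `(2j-2)α - β ≤ m`, `-2jβ - α ≤ m` (for `j ≥ 3`). -/
theorem exists_theta (j : ℤ) (hj : 3 ≤ j) : ∃ θ : ℤ × ℤ → ℤ × ℤ, Function.Injective θ ∧
    ∀ (m : ℤ) (p : ℤ × ℤ), |p.1| ≤ m → |p.2| ≤ m →
      (θ p).2 ≤ m ∧ (θ p).1 + (2 * j - 4) * (θ p).2 ≤ m ∧ (2 * j - 2) * (θ p).1 - (θ p).2 ≤ m ∧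
        -(2 * j * (θ p).2) - (θ p).1 ≤ m := by
  set θ : ℤ × ℤ → ℤ × ℤ := fun p => if p.2 ≤ p.1 ∧ p.2 ≤ -p.1 then (p.1 + (2*j-2)*p.2, -p.2)
      else if p.1 ≤ 0 then (2*j*p.1 - p.2, -p.1)
      else if p.2 ≤ (2*j-3)*p.1 then (p.2 - (2*j-4)*p.1, p.1)
      else if p.2 ≤ (2*j-1)*p.1 then (p.1, (2*j-2)*p.1 - p.2)
      else (2*j*p.1 - p.2, -p.1) with hθ
  have key := exists_theta_key j θ hθ
  refine ⟨θ, ?_, ?_⟩
  · rintro ⟨u, v⟩ ⟨u', v'⟩ h
    obtain ⟨α, β, hab⟩ : ∃ α β, θ (u, v) = (α, β) := ⟨_, _, rfl⟩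
    have h1 := key u v α β hab
    have h2 := key u' v' α β (h ▸ hab)
    have hβ : 0 ≤ β → 3 * β ≤ j * β := fun hb => mul_le_mul_of_nonneg_right hj hb
    clear key hab h hθ
    rcases h1 with ⟨a1, a2, a3, rfl, rfl⟩ | ⟨a1, a2, rfl, rfl⟩ | ⟨a1, a2, a3, rfl, rfl⟩ |
      ⟨a1, a2, a3, rfl, rfl⟩ | ⟨a1, a2, rfl, rfl⟩ <;>
    rcases h2 with ⟨b1, b2, b3, rfl, rfl⟩ | ⟨b1, b2, rfl, rfl⟩ | ⟨b1, b2, b3, rfl, rfl⟩ |
      ⟨b1, b2, b3, rfl, rfl⟩ | ⟨b1, b2, rfl, rfl⟩ <;>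
    first
      | rfl
      | (exfalso; linarith)
      | (exfalso; have := hβ (by linarith); linarith)
  · rintro m ⟨u, v⟩ hu hv
    obtain ⟨α, β, hab⟩ : ∃ α β, θ (u, v) = (α, β) := ⟨_, _, rfl⟩
    have h1 := key u v α β hab
    rw [hab]
    clear key hab hθ
    dsimp only at hu hv ⊢
    obtain ⟨hu1, hu2⟩ := abs_le.1 hu
    obtain ⟨hv1, hv2⟩ := abs_le.1 hv
    have hm : 0 ≤ m := le_trans (abs_nonneg _) hu
    rcases h1 with ⟨a1, a2, a3, rfl, rfl⟩ | ⟨a1, a2, rfl, rfl⟩ | ⟨a1, a2, a3, rfl, rfl⟩ |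
      ⟨a1, a2, a3, rfl, rfl⟩ | ⟨a1, a2, rfl, rfl⟩
    · have hjβ : 3 * β ≤ j * β := mul_le_mul_of_nonneg_right hj a1
      refine ⟨by linarith, by linarith, ?_, by linarith⟩
      have h3 : (2*j-2) * α ≤ (2*j-2) * 0 := by
        apply mul_le_mul_of_nonneg_left _ (by linarith)
        linarith
      linarith
    · have hjβ : 3 * β ≤ j * β := mul_le_mul_of_nonneg_right hj a1
      refine ⟨by linarith, by linarith, ?_, by linarith⟩
      have h3 : (2*j-2) * α ≤ (2*j-2) * 0 := by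
        apply mul_le_mul_of_nonneg_left _ (by linarith)
        linarith
      linarith
    · have hjβ : 3 * u ≤ j * u := mul_le_mul_of_nonneg_right hj a1.le
      refine ⟨by linarith, by linarith, ?_, by linarith⟩
      have h3 : (2*j-3) * α ≤ (2*j-3) * u := mul_le_mul_of_nonneg_left a3 (by linarith)
      nlinarith
    · have hjα : 3 * u ≤ j * u := mul_le_mul_of_nonneg_right hj a1.le
      refine ⟨by linarith, ?_, by linarith, ?_⟩
      · have h3 : (2*j-3) * β ≤ (2*j-3) * u := mul_le_mul_of_nonneg_left a3.le (by linarith)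
        nlinarith
      · have h3 : (2*j-1) * (-u) ≤ (2*j-1) * β := mul_le_mul_of_nonneg_left a2 (by linarith)
        nlinarith
    · have hjβ : j * β ≤ 3 * β := by nlinarith
      refine ⟨by linarith, by linarith, ?_, by linarith⟩
      have h3 : (2*j-1) * α ≤ (2*j-1) * (-β) := mul_le_mul_of_nonneg_left a2.le (by linarith)
      nlinarith

end Pool.Agent.Helper293.SD
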