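import Pool.Agent.Helper293.SD.Alg

/-!
The homogenisation maps and the dimension count.
-/

open Polynomial

noncomputable section

namespace Pool.Agent.Helper293.SD

/-- box of size `m` -/
def box (m : ℕ) : Set (Fin 2 → ℤ) := {u | |u 0| ≤ m ∧ |u 1| ≤ m}

/-- TARGET. `χ u` (`u ∈ ℤ²`) linearly independent multiplicative characters in a field `K`; `s0, s1, t`
elements of a commutative `ℂ`-algebra. The linear maps `Ψ m : χ u ↦ s0^(m-u₀) s1^(m+u₀) t^(m+u₁)` for `u` in the box. -/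
theorem exists_Psi {K : Type} [Field K] [Algebra ℂ K] (χ : (Fin 2 → ℤ) → K) (χ_zero : χ 0 = 1)
    (χ_add : ∀ u v, χ (u + v) = χ u * χ v) (li : LinearIndependent ℂ χ)
    {A : Type} [CommRing A] [Algebra ℂ A] (s0 s1 t : A) :
    ∃ Ψ : ℕ → K →ₗ[ℂ] A,
      (∀ m, ∀ u ∈ box m, Ψ m (χ u) =
        s0 ^ (m - u 0).toNat * s1 ^ (m + u 0).toNat * t ^ (m + u 1).toNat) ∧
      (∀ m m', ∀ f ∈ Submodule.span ℂ (χ '' box m), ∀ f' ∈ Submodule.span ℂ (χ '' box m'),
        Ψ (m + m') (f * f') = Ψ m f * Ψ m' f') ∧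
      (∀ m, (Submodule.span ℂ (χ '' box m)).map (Ψ m) =
        Submodule.span ℂ {z | ∃ i i' c : ℕ, i + i' = 2 * m ∧ c ≤ 2 * m ∧
          z = s0 ^ i * s1 ^ i' * t ^ c}) ∧
      Ψ 0 1 = 1 ∧
      (∀ m, ∃ s : Finset K, s.card ≤ (2 * m + 1) ^ 2 ∧ Submodule.span ℂ (χ '' box m) =
        Submodule.span ℂ (s : Set K)) := by
  classical
  have hinj : Function.Injective (Finsupp.linearCombination ℂ χ) := li
  obtain ⟨ρ, hρ⟩ := (Finsupp.linearCombination ℂ χ).exists_leftInverse_of_injective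
    (LinearMap.ker_eq_bot.mpr hinj)
  let val : ℕ → (Fin 2 → ℤ) → A := fun m u =>
    s0 ^ (m - u 0).toNat * s1 ^ (m + u 0).toNat * t ^ (m + u 1).toNat
  let Ψ : ℕ → K →ₗ[ℂ] A := fun m => (Finsupp.linearCombination ℂ (val m)) ∘ₗ ρ
  have hΨ : ∀ m u, Ψ m (χ u) = val m u := by
    intro m u
    have h1 : ρ (χ u) = Finsupp.single u 1 := by
      have := LinearMap.congr_fun hρ (Finsupp.single u 1)
      simpa using this
    change Finsupp.linearCombination ℂ (val m) (ρ (χ u)) = _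
    rw [h1]
    simp
  have hval : ∀ m m' u v, u ∈ box m → v ∈ box m' → val (m + m') (u + v) = val m u * val m' v := by
    intro m m' u v hu hv
    obtain ⟨hu0, hu1⟩ := hu
    obtain ⟨hv0, hv1⟩ := hv
    rw [abs_le] at hu0 hu1 hv0 hv1
    have e1 : (((m + m' : ℕ) : ℤ) - (u + v) 0).toNat = ((m : ℤ) - u 0).toNat + ((m' : ℤ) - v 0).toNat := by
      simp only [Pi.add_apply]
      push_cast
      omega
    have e2 : (((m + m' : ℕ) : ℤ) + (u + v) 0).toNat = ((m : ℤ) + u 0).toNat + ((m' : ℤ) + v 0).toNat := by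
      simp only [Pi.add_apply]
      push_cast
      omega
    have e3 : (((m + m' : ℕ) : ℤ) + (u + v) 1).toNat = ((m : ℤ) + u 1).toNat + ((m' : ℤ) + v 1).toNat := by
      simp only [Pi.add_apply]
      push_cast
      omega
    change s0 ^ (((m + m' : ℕ) : ℤ) - (u + v) 0).toNat * s1 ^ (((m + m' : ℕ) : ℤ) + (u + v) 0).toNat
      * t ^ (((m + m' : ℕ) : ℤ) + (u + v) 1).toNat =
      (s0 ^ ((m : ℤ) - u 0).toNat * s1 ^ ((m : ℤ) + u 0).toNat * t ^ ((m : ℤ) + u 1).toNat) *
      (s0 ^ ((m' : ℤ) - v 0).toNat * s1 ^ ((m' : ℤ) + v 0).toNat * t ^ ((m' : ℤ) + v 1).toNat)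
    rw [e1, e2, e3, pow_add, pow_add, pow_add]
    ring
  refine ⟨Ψ, fun m u _ => hΨ m u, ?_, ?_, ?_, ?_⟩
  · intro m m' f hf f' hf'
    induction hf using Submodule.span_induction with
    | mem x hx =>
      obtain ⟨u, hu, rfl⟩ := hx
      induction hf' using Submodule.span_induction with
      | mem y hy =>
        obtain ⟨v, hv, rfl⟩ := hy
        rw [← χ_add, hΨ, hΨ, hΨ, hval m m' u v hu hv]
      | zero => simp
      | add y z _ _ hy hz => rw [mul_add, map_add, map_add, hy, hz, mul_add]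
      | smul c y _ hy => rw [mul_smul_comm, map_smul, map_smul, hy, mul_smul_comm]
    | zero => simp
    | add x y _ _ hx hy => rw [add_mul, map_add, map_add, hx, hy, add_mul]
    | smul c x _ hx => rw [smul_mul_assoc, map_smul, map_smul, hx, smul_mul_assoc]
  · intro m
    rw [Submodule.map_span]
    congr 1
    ext z
    constructor
    · rintro ⟨_, ⟨u, ⟨hu0, hu1⟩, rfl⟩, rfl⟩
      rw [abs_le] at hu0 hu1
      refine ⟨((m : ℤ) - u 0).toNat, ((m : ℤ) + u 0).toNat, ((m : ℤ) + u 1).toNat, ?_, ?_, hΨ m u⟩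
      · omega
      · omega
    · rintro ⟨i, i', c, h1, h2, rfl⟩
      refine ⟨χ ![(m : ℤ) - i, (c : ℤ) - m], ⟨![(m : ℤ) - i, (c : ℤ) - m], ⟨?_, ?_⟩, rfl⟩, ?_⟩
      · simp only [Matrix.cons_val_zero]
        rw [abs_le]
        constructor <;> omega
      · simp only [Matrix.cons_val_one, Matrix.cons_val_zero]
        rw [abs_le]
        constructor <;> omega
      · rw [hΨ]
        change s0 ^ ((m : ℤ) - ((m : ℤ) - i)).toNat * s1 ^ ((m : ℤ) + ((m : ℤ) - i)).toNat
          * t ^ ((m : ℤ) + ((c : ℤ) - m)).toNat = _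
        have e1 : ((m : ℤ) - ((m : ℤ) - i)).toNat = i := by omega
        have e2 : ((m : ℤ) + ((m : ℤ) - i)).toNat = i' := by omega
        have e3 : ((m : ℤ) + ((c : ℤ) - m)).toNat = c := by omega
        rw [e1, e2, e3]
  · rw [← χ_zero, hΨ]
    simp [val]
  · intro m
    refine ⟨((Finset.Icc (-(m : ℤ)) m ×ˢ Finset.Icc (-(m : ℤ)) m).image
      (fun p => χ ![p.1, p.2])), ?_, ?_⟩
    · refine Finset.card_image_le.trans ?_
      rw [Finset.card_product, Int.card_Icc]
      have : ((m : ℤ) + 1 - -(m : ℤ)).toNat = 2 * m + 1 := by omega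
      rw [this, sq]
    · congr 1
      ext z
      simp only [Finset.coe_image, Set.mem_image, Finset.coe_product, Set.mem_prod, Finset.coe_Icc,
        Set.mem_Icc, Prod.exists]
      constructor
      · rintro ⟨u, ⟨hu0, hu1⟩, rfl⟩
        rw [abs_le] at hu0 hu1
        refine ⟨u 0, u 1, ⟨hu0, hu1⟩, ?_⟩
        congr 1
        funext k
        fin_cases k <;> rfl
      · rintro ⟨a, b, ⟨ha, hb⟩, rfl⟩
        exact ⟨![a, b], ⟨abs_le.mpr ha, abs_le.mpr hb⟩, rfl⟩




/-- TARGET (dimension count). -/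
theorem count_aux {K : Type} [AddCommGroup K] [Module ℂ K] (R : Submodule ℂ K)
    (Ψ : K →ₗ[ℂ] P[X]) (M : ℕ) (hR : ∃ s : Finset K, s.card ≤ M ∧ R = Submodule.span ℂ (s : Set K))
    {I : Type} (pts : Set I) (H : I → P[X]) (e : I → ℕ) (a : I → ℤ)
    (hLT : ∀ q ∈ pts, LT (H q) (e q) (a q))
    (hinj : ∀ q ∈ pts, ∀ q' ∈ pts, e q = e q' → a q = a q' → q = q')
    (hH : ∀ q ∈ pts, H q ∈ R.map Ψ) (B : Finset I) (hB : (B : Set I) ⊆ pts) (hBc : M ≤ B.card) :
    (∀ f ∈ R, Ψ f = 0 → f = 0) ∧ pts = (B : Set I) ∧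
      R.map Ψ = Submodule.span ℂ (H '' pts) := by
  classical
  obtain ⟨s, hs, hR'⟩ := hR
  have fd : FiniteDimensional ℂ R := by
    rw [hR']
    exact FiniteDimensional.span_finset ℂ s
  have hRf : Module.finrank ℂ R ≤ M := by
    rw [hR']
    exact (finrank_span_finset_le_card s).trans hs
  have hind : LinearIndependent ℂ (fun q : pts => H q.1) :=
    lt_indep (fun q : pts => H q.1) (fun q : pts => e q.1) (fun q : pts => a q.1)
      (fun q => hLT q.1 q.2) (fun q q' h1 h2 => Subtype.ext (hinj q.1 q.2 q'.1 q'.2 h1 h2))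
  have key : ∀ (W : Submodule ℂ P[X]), FiniteDimensional ℂ W → ∀ (B' : Finset I),
      (B' : Set I) ⊆ pts → (∀ q ∈ pts, H q ∈ W) → B'.card ≤ Module.finrank ℂ W := by
    intro W hW B' hB' hHW
    have h1 : LinearIndependent ℂ (fun q : B' => H q.1) := by
      have h2 := hind.comp (fun q : B' => (⟨q.1, hB' q.2⟩ : pts)) (by
        intro q q' h
        have h3 := congrArg Subtype.val h
        exact Subtype.ext h3)
      exact h2
    have h2 : LinearIndependent ℂ (fun q : B' => (⟨H q.1, hHW q.1 (hB' q.2)⟩ : W)) := by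
      apply LinearIndependent.of_comp W.subtype
      exact h1
    have h3 := h2.fintype_card_le_finrank
    rwa [Fintype.card_coe] at h3
  have hmap : Module.finrank ℂ (R.map Ψ) ≤ Module.finrank ℂ R := Submodule.finrank_map_le Ψ R
  have hk := key (R.map Ψ) inferInstance B hB hH
  refine ⟨?_, ?_, ?_⟩
  · intro f hf h0
    have h1 := LinearMap.finrank_range_add_finrank_ker (Ψ.domRestrict R)
    have h2 : LinearMap.range (Ψ.domRestrict R) = R.map Ψ := by
      ext y
      constructor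
      · rintro ⟨x, rfl⟩
        exact ⟨x.1, x.2, rfl⟩
      · rintro ⟨x, hx, rfl⟩
        exact ⟨⟨x, hx⟩, rfl⟩
    rw [h2] at h1
    have h3 : Module.finrank ℂ (LinearMap.ker (Ψ.domRestrict R)) = 0 := by omega
    have h4 : LinearMap.ker (Ψ.domRestrict R) = ⊥ := Submodule.finrank_eq_zero.1 h3
    have h5 : (⟨f, hf⟩ : R) ∈ LinearMap.ker (Ψ.domRestrict R) := h0
    rw [h4, Submodule.mem_bot] at h5
    exact congrArg Subtype.val h5
  · refine Set.Subset.antisymm ?_ hB
    intro q hq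
    by_contra hqB
    have h1 := key (R.map Ψ) inferInstance (insert q B) (by
      intro x hx
      rw [Finset.coe_insert] at hx
      rcases hx with rfl | hx
      · exact hq
      · exact hB hx) hH
    rw [Finset.card_insert_of_notMem hqB] at h1
    omega
  · have hle : Submodule.span ℂ (H '' pts) ≤ R.map Ψ := by
      rw [Submodule.span_le]
      rintro _ ⟨q, hq, rfl⟩
      exact hH q hq
    have hfd : FiniteDimensional ℂ (Submodule.span ℂ (H '' pts)) :=
      Submodule.finiteDimensional_of_le hle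
    have h1 := key (Submodule.span ℂ (H '' pts)) hfd B hB
      (fun q hq => Submodule.subset_span ⟨q, hq, rfl⟩)
    exact (Submodule.eq_of_le_of_finrank_le hle (by omega)).symm


end Pool.Agent.Helper293.SD
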