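import Pool.Agent.Helper293.SD.Frame
import Pool.Agent.Helper293.SD.Psi
import Pool.Agent.Helper293.SD.Comb

/-!
The frame of the degeneration of `ℙ¹ × ℙ¹` to `Y_N`.
-/

open Polynomial

noncomputable section

namespace Pool.Agent.Helper293.SD

/-- lattice points of the polygon of `Y_N`, dilated by `m` -/
def ypts (N m : ℕ) : Set (Fin 2 → ℤ) :=
  {u | u 1 ≤ m ∧ u 0 + (2 * N + 2) * u 1 ≤ m ∧ (2 * N + 4) * u 0 - u 1 ≤ m ∧
    -((2 * N + 6) * u 1) - u 0 ≤ m}

theorem ypts_H (N m : ℕ) (q : Fin 2 → ℤ) (hq : q ∈ ypts N m) :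
    ∃ H ∈ V (N + 3) (2 * m) (2 * m), ∃ e : ℕ, (e : ℤ) = m - q 0 ∧ LT H e (q 0 + q 1) := by
  obtain ⟨h1, h2, h3, h4⟩ := hq
  refine exists_H (N + 3) (by omega) m (q 0) (q 1) h1 ?_ ?_ ?_
  · push_cast; linarith
  · push_cast; linarith
  · push_cast; linarith

/-- the points of the box of size `m`, mapped to the polygon -/
theorem ypts_B (N m : ℕ) : ∃ B : Finset (Fin 2 → ℤ), (B : Set (Fin 2 → ℤ)) ⊆ ypts N m ∧
    (2 * m + 1) ^ 2 ≤ B.card := by
  classical
  obtain ⟨θ, hinj, hθ⟩ := exists_theta ((N : ℤ) + 3) (by omega)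
  let I : Finset (ℤ × ℤ) := Finset.Icc (-(m : ℤ)) m ×ˢ Finset.Icc (-(m : ℤ)) m
  refine ⟨I.image fun p => ![(θ p).1, (θ p).2], ?_, ?_⟩
  · intro u hu
    rw [Finset.mem_coe, Finset.mem_image] at hu
    obtain ⟨p, hp, rfl⟩ := hu
    rw [Finset.mem_product, Finset.mem_Icc, Finset.mem_Icc] at hp
    obtain ⟨h1, h2, h3, h4⟩ := hθ m p (abs_le.2 hp.1) (abs_le.2 hp.2)
    refine ⟨?_, ?_, ?_, ?_⟩
    · simpa using h1
    · simp only [Matrix.cons_val_zero, Matrix.cons_val_one]; linarith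
    · simp only [Matrix.cons_val_zero, Matrix.cons_val_one]; linarith
    · simp only [Matrix.cons_val_zero, Matrix.cons_val_one]; linarith
  · rw [Finset.card_image_of_injective]
    · rw [Finset.card_product, Int.card_Icc, ← sq]
      have : ((m : ℤ) + 1 - -(m : ℤ)).toNat = 2 * m + 1 := by omega
      rw [this]
    · intro p p' h
      apply hinj
      have h0 := congrFun h 0
      have h1 := congrFun h 1
      simp only [Matrix.cons_val_zero, Matrix.cons_val_one] at h0 h1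
      exact Prod.ext h0 h1

theorem ypts_gen (N : ℕ) : ∃ (n : ℕ) (d : Fin n → ℕ) (q : Fin n → Fin 2 → ℤ),
    (∀ k, q k ∈ ypts N (d k)) ∧
    ∀ m, ∀ u ∈ ypts N m, ∃ a : Fin n → ℕ, ∑ k, a k * d k = m ∧ ∑ k, a k • q k = u := by
  let L : Fin 4 → (ℤ × ℤ × ℤ →+ ℤ) :=
    ![ { toFun := fun x => x.1 - x.2.2
         map_zero' := by simp
         map_add' := fun x y => by simp only [Prod.fst_add, Prod.snd_add]; ring },
       { toFun := fun x => x.1 - x.2.1 - (2 * N + 2) * x.2.2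
         map_zero' := by simp
         map_add' := fun x y => by simp only [Prod.fst_add, Prod.snd_add]; ring },
       { toFun := fun x => x.1 - (2 * N + 4) * x.2.1 + x.2.2
         map_zero' := by simp
         map_add' := fun x y => by simp only [Prod.fst_add, Prod.snd_add]; ring },
       { toFun := fun x => x.1 + (2 * N + 6) * x.2.2 + x.2.1
         map_zero' := by simp
         map_add' := fun x y => by simp only [Prod.fst_add, Prod.snd_add]; ring }]
  have hL : ∀ x : ℤ × ℤ × ℤ, (∀ i, 0 ≤ L i x) ↔ (0 ≤ x.1 - x.2.2 ∧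
      0 ≤ x.1 - x.2.1 - (2 * N + 2) * x.2.2 ∧ 0 ≤ x.1 - (2 * N + 4) * x.2.1 + x.2.2 ∧
      0 ≤ x.1 + (2 * N + 6) * x.2.2 + x.2.1) := by
    intro x
    constructor
    · intro h
      exact ⟨h 0, h 1, h 2, h 3⟩
    · rintro ⟨h0, h1, h2, h3⟩ i
      fin_cases i
      · exact h0
      · exact h1
      · exact h2
      · exact h3
  obtain ⟨n, g, hg, hgen⟩ := gordan L (by
    intro x h
    have h0 : x.1 - x.2.2 = 0 := h 0
    have h1 : x.1 - x.2.1 - (2 * N + 2) * x.2.2 = 0 := h 1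
    have h3 : x.1 + (2 * N + 6) * x.2.2 + x.2.1 = 0 := h 3
    have e1 : x.2.2 = x.1 := by linarith
    rw [e1] at h1 h3
    have e2 : x.1 = 0 := by linarith
    have e3 : x.2.1 = 0 := by rw [e2] at h1; linarith
    exact Prod.ext e2 (Prod.ext e3 (e1.trans e2)))
  have hpos : ∀ k, 0 ≤ (g k).1 := by
    intro k
    obtain ⟨h0, h1, h2, h3⟩ := (hL (g k)).1 (hg k)
    linarith
  refine ⟨n, fun k => (g k).1.toNat, fun k => ![(g k).2.1, (g k).2.2], ?_, ?_⟩
  · intro k
    obtain ⟨h0, h1, h2, h3⟩ := (hL (g k)).1 (hg k)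
    have e : (((g k).1.toNat : ℕ) : ℤ) = (g k).1 := Int.toNat_of_nonneg (hpos k)
    refine ⟨?_, ?_, ?_, ?_⟩ <;> simp only [Matrix.cons_val_zero, Matrix.cons_val_one, e] <;>
      linarith
  · intro m u hu
    obtain ⟨a, ha⟩ := hgen ((m : ℤ), u 0, u 1) ((hL _).2 (by
      obtain ⟨h1, h2, h3, h4⟩ := hu
      refine ⟨?_, ?_, ?_, ?_⟩ <;> simp only <;> linarith))
    refine ⟨a, ?_, ?_⟩
    · have h := congrArg Prod.fst ha
      rw [Prod.fst_sum] at h
      have h' : ((∑ k, a k * (g k).1.toNat : ℕ) : ℤ) = m := by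
        rw [Nat.cast_sum]
        refine Eq.trans ?_ h.symm
        refine Finset.sum_congr rfl fun k _ => ?_
        rw [Nat.cast_mul, Int.toNat_of_nonneg (hpos k), Prod.smul_fst, nsmul_eq_mul]
      exact_mod_cast h'
    · have h1 := congrArg (fun x => x.2.1) ha
      have h2 := congrArg (fun x => x.2.2) ha
      simp only [Prod.snd_sum, Prod.fst_sum, Prod.smul_snd, Prod.smul_fst] at h1 h2
      ext i
      rw [Finset.sum_apply]
      fin_cases i
      · simpa using h1.symm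
      · simpa using h2.symm

end Pool.Agent.Helper293.SD
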