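import Pool.Agent.Helper293.SD.Build

/-!
The frame of the degeneration of `ℙ¹ × ℙ¹` to `Y_N`.
-/

open Polynomial

noncomputable section

namespace Pool.Agent.Helper293.SD

theorem exists_frame {K K' : Type} [Field K] [Algebra ℂ K] [Field K'] [Algebra ℂ K']
    (χ : (Fin 2 → ℤ) → K) (χ_zero : χ 0 = 1)
    (χ_add : ∀ u v, χ (u + v) = χ u * χ v) (li : LinearIndependent ℂ χ)
    (χ' : (Fin 2 → ℤ) → K') (χ_zero' : χ' 0 = 1)
    (χ_add' : ∀ u v, χ' (u + v) = χ' u * χ' v) (li' : LinearIndependent ℂ χ') (N : ℕ) :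
    ∃ S : Frame K K', (∀ m, S.Rm m = Submodule.span ℂ (χ '' box m)) ∧
      (∀ m, (S.pts m : Set (Fin 2 → ℤ)) = ypts N m) ∧ S.χ = χ' := by
  classical
  obtain ⟨Ψ, hΨ, hmul, hmap, hone, hcard⟩ := exists_Psi χ χ_zero χ_add li
    (f (N + 3) 0) (f (N + 3) 1) tt
  have hR : ∀ m, (Submodule.span ℂ (χ '' box m)).map (Ψ m) = V (N + 3) (2 * m) (2 * m) :=
    fun m => hmap m
  have hH : ∀ m, ∀ q : Fin 2 → ℤ, ∃ (H : P[X]) (e : ℕ), q ∈ ypts N m →
      H ∈ V (N + 3) (2 * m) (2 * m) ∧ (e : ℤ) = m - q 0 ∧ LT H e (q 0 + q 1) := by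
    intro m q
    by_cases hq : q ∈ ypts N m
    · obtain ⟨H, h1, e, h2, h3⟩ := ypts_H N m q hq
      exact ⟨H, e, fun _ => ⟨h1, h2, h3⟩⟩
    · exact ⟨0, 0, fun h => absurd h hq⟩
  choose Hp e hHp using hH
  choose B hB hBc using ypts_B N
  have hcount : ∀ m, (∀ g ∈ Submodule.span ℂ (χ '' box m), Ψ m g = 0 → g = 0) ∧
      ypts N m = (B m : Set (Fin 2 → ℤ)) ∧
      (Submodule.span ℂ (χ '' box m)).map (Ψ m) = Submodule.span ℂ (Hp m '' ypts N m) := by
    intro m
    refine count_aux _ (Ψ m) ((2 * m + 1) ^ 2) (hcard m) (ypts N m) (Hp m) (e m)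
      (fun q => q 0 + q 1) (fun q hq => (hHp m q hq).2.2) ?_ ?_ (B m) (hB m) (hBc m)
    · intro q hq q' hq' h1 h2
      have e1 := (hHp m q hq).2.1
      have e2 := (hHp m q' hq').2.1
      change q 0 + q 1 = q' 0 + q' 1 at h2
      rw [h1, e2] at e1
      ext i
      fin_cases i
      · show q 0 = q' 0
        linarith
      · show q 1 = q' 1
        linarith
    · intro q hq
      rw [hR m]
      exact (hHp m q hq).1
  have hlift : ∀ m, ∀ q : Fin 2 → ℤ, ∃ h : K, q ∈ ypts N m →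
      h ∈ Submodule.span ℂ (χ '' box m) ∧ Ψ m h = Hp m q := by
    intro m q
    by_cases hq : q ∈ ypts N m
    · have h1 := (hHp m q hq).1
      rw [← hR m] at h1
      obtain ⟨h, h2, h3⟩ := h1
      exact ⟨h, fun _ => ⟨h2, h3⟩⟩
    · exact ⟨0, fun h => absurd h hq⟩
  choose H hHl using hlift
  obtain ⟨n, d, q, hq, hgen⟩ := ypts_gen N
  have hbox0 : (0 : Fin 2 → ℤ) ∈ box 0 := by
    constructor <;> simp
  have hbadd : ∀ m m', ∀ g ∈ Submodule.span ℂ (χ '' box m),
      ∀ g' ∈ Submodule.span ℂ (χ '' box m'),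
      g * g' ∈ Submodule.span ℂ (χ '' box (m + m')) := by
    intro m m' g hg g' hg'
    have h := Submodule.mul_mem_mul hg hg'
    rw [Submodule.span_mul_span] at h
    refine Submodule.span_mono ?_ h
    rintro _ ⟨_, ⟨u, hu, rfl⟩, _, ⟨v, hv, rfl⟩, rfl⟩
    refine ⟨u + v, ?_, χ_add u v⟩
    constructor
    · rw [Pi.add_apply]; push_cast
      exact (abs_add_le _ _).trans (add_le_add hu.1 hv.1)
    · rw [Pi.add_apply]; push_cast
      exact (abs_add_le _ _).trans (add_le_add hu.2 hv.2)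
  refine ⟨{
    Rm := fun m => Submodule.span ℂ (χ '' box m)
    pts := B
    Ψ := Ψ
    χ := χ'
    χ_zero := χ_zero'
    χ_add := χ_add'
    li := li'
    one_mem := Submodule.subset_span ⟨0, hbox0, χ_zero⟩
    Ψ_one := hone
    mul_mem := fun m m' g g' hg hg' => hbadd m m' g hg g' hg'
    Ψ_mul := fun m m' g g' hg hg' => hmul m m' g hg g' hg'
    H := H
    e := e
    H_mem := fun m q hq => (hHl m q (by rw [(hcount m).2.1]; exact hq)).1
    he := fun m q hq => (hHp m q (by rw [(hcount m).2.1]; exact hq)).2.1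
    H_lt := fun m q hq => by
      have hq' : q ∈ ypts N m := by rw [(hcount m).2.1]; exact hq
      rw [(hHl m q hq').2]
      exact (hHp m q hq').2.2
    span := fun m g hg => by
      have h1 : Ψ m g ∈ Submodule.span ℂ (Hp m '' ypts N m) := by
        rw [← (hcount m).2.2]
        exact Submodule.mem_map_of_mem hg
      have h2 : Hp m '' ypts N m = Ψ m '' (H m '' ypts N m) := by
        rw [Set.image_image]
        exact Set.image_congr fun q hq => ((hHl m q hq).2).symm
      rw [h2, Submodule.span_image] at h1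
      obtain ⟨g', hg', h3⟩ := h1
      have h4 : g' ∈ Submodule.span ℂ (χ '' box m) := by
        refine Submodule.span_le.2 ?_ hg'
        rintro _ ⟨q, hq, rfl⟩
        exact (hHl m q hq).1
      have h5 : g - g' = 0 := (hcount m).1 _ (Submodule.sub_mem _ hg h4) (by
        rw [map_sub, h3, sub_self])
      rw [sub_eq_zero.1 h5, ← (hcount m).2.1]
      exact hg'
    zero_mem := by
      rw [← Finset.mem_coe, ← (hcount 0).2.1]
      refine ⟨?_, ?_, ?_, ?_⟩ <;> simp
    n := n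
    d := d
    q := q
    q_mem := fun k => by
      rw [← Finset.mem_coe, ← (hcount _).2.1]
      exact hq k
    gen := fun m u hu => hgen m u (by rw [(hcount m).2.1]; exact hu) }, ?_, ?_, rfl⟩
  · intro m
    rfl
  · intro m
    exact (hcount m).2.1.symm

end Pool.Agent.Helper293.SD
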