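import Pool.Agent.Helper774.KSing.Main

/-!
The toric data of `ℙ¹ × ℙ¹` and of `Y_N`, and point derivations on affine toric surfaces.
-/

namespace Pool.Agent.Helper293.SD

open Pool.Agent.Helper774.KSing
open Pool.Agent.Helper774.KStab (TorusField)

/-- The cones of the fan of `ℙ¹ × ℙ¹` (columns = rays): `(e₁,e₂), (-e₁,e₂), (-e₁,-e₂), (e₁,-e₂)`. -/
def boxR : Fin 4 → Matrix (Fin 2) (Fin 2) ℤ :=
  ![!![1, 0; 0, 1], !![-1, 0; 0, 1], !![-1, 0; 0, -1], !![1, 0; 0, -1]]

/-- vertices -/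
def boxW : Fin 4 → Fin 2 → ℤ := ![![-1,-1], ![1,-1], ![1,1], ![-1,1]]

theorem boxVM (u : Fin 2 → ℤ) (σ : Fin 4) (j : Fin 2) :
    Matrix.vecMul u (boxR σ) j = u 0 * boxR σ 0 j + u 1 * boxR σ 1 j := by
  simp [Matrix.vecMul, dotProduct, Fin.sum_univ_two]

def boxData : SData 2 where
  pos := by norm_num
  ι := Fin 4
  fin := inferInstance
  R := boxR
  det_ne := by
    intro σ; fin_cases σ <;> simp [boxR, Matrix.det_fin_two]
  prim := by
    intro σ j
    refine ⟨fun i => boxR σ i j, ?_⟩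
    rw [boxVM]
    fin_cases σ <;> fin_cases j <;> simp [boxR]
  r := 1
  r_pos := le_refl 1
  w := boxW
  w_self := by
    intro σ j
    rw [boxVM]
    fin_cases σ <;> fin_cases j <;> simp [boxR, boxW]
  vert := by
    intro σ τ j
    rw [boxVM]
    revert σ τ j
    decide
  strict := by
    intro σ τ j
    rw [boxVM]
    revert σ τ j
    decide
  nbr := by
    intro σ i
    simp only [boxVM]
    revert σ i
    decide
  ne := ⟨(0 : Fin 4)⟩

/-- TARGET 1: the data of `ℙ¹ × ℙ¹` (w σ = the vertices (-1,-1), (1,-1), (1,1), (-1,1), r = 1). -/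
theorem exists_boxData : ∃ D : SData 2, ∃ e : D.ι = Fin 4, (∀ σ, D.R σ = boxR (cast e σ)) ∧
    ∀ (m : ℕ) (u : Fin 2 → ℤ), u ∈ D.pts m ↔ |u 0| ≤ m ∧ |u 1| ≤ m := by
  refine ⟨boxData, rfl, fun σ => rfl, ?_⟩
  intro m u
  have h : u ∈ boxData.pts m ↔ ∀ (σ : Fin 4) (j : Fin 2), -(m : ℤ) ≤ Matrix.vecMul u (boxR σ) j :=
    Iff.rfl
  rw [h]
  simp only [boxVM]
  rw [abs_le, abs_le]
  constructor
  · intro h
    have h00 := h 0 0
    have h01 := h 0 1
    have h20 := h 2 0
    have h21 := h 2 1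
    simp [boxR] at h00 h01 h20 h21
    refine ⟨⟨?_, ?_⟩, ?_, ?_⟩ <;> linarith
  · rintro ⟨⟨h1, h2⟩, h3, h4⟩ σ j
    fin_cases σ <;> fin_cases j <;> simp [boxR] <;> linarith

/-- The cones of the fan of `Y_N`: rays `n1 = (0,-1)`, `n2 = (-1,-(2N+2))`, `n3 = (-(2N+4), 1)`,
`n4 = (1, 2N+6)`, cones `(n1,n4), (n4,n3), (n3,n2), (n2,n1)`. -/
def yR (N : ℤ) : Fin 4 → Matrix (Fin 2) (Fin 2) ℤ :=
  ![!![0, 1; -1, 2 * N + 6], !![1, -(2 * N + 4); 2 * N + 6, 1],
    !![-(2 * N + 4), -1; 1, -(2 * N + 2)], !![-1, 0; -(2 * N + 2), -1]]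

/-- the values of a linear form on the rays -/
def yL (N : ℤ) (u : Fin 2 → ℤ) : Fin 4 → Fin 2 → ℤ :=
  ![![-u 1, u 0 + (2 * N + 6) * u 1], ![u 0 + (2 * N + 6) * u 1, -((2 * N + 4) * u 0) + u 1],
    ![-((2 * N + 4) * u 0) + u 1, -u 0 - (2 * N + 2) * u 1], ![-u 0 - (2 * N + 2) * u 1, -u 1]]

theorem y_vm (N : ℤ) (u : Fin 2 → ℤ) (τ : Fin 4) (j : Fin 2) :
    Matrix.vecMul u (yR N τ) j = yL N u τ j := by
  fin_cases τ <;> fin_cases j <;>
    simp [yR, yL, Matrix.vecMul, dotProduct, Fin.sum_univ_two] <;> ring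

/-- the vertices -/
def yW (N r : ℤ) : Fin 4 → Fin 2 → ℤ :=
  ![![-((2 * N + 7) * r), r], ![2 * N + 3, -(2 * N + 3)], ![2 * N + 5, 2 * N + 5],
    ![-((2 * N + 1) * r), r]]

theorem y_det (N : ℤ) (hN : 0 ≤ N) : ∀ σ, (yR N σ).det ≠ 0 := by
  intro σ
  fin_cases σ <;> simp [yR, Matrix.det_fin_two_of] <;> intro h <;> nlinarith

theorem y_prim (N : ℤ) : ∀ σ j, ∃ u, Matrix.vecMul u (yR N σ) j = 1 := by
  intro σ j
  fin_cases σ <;> fin_cases j
  · exact ⟨![0, -1], by rw [y_vm]; simp [yL]⟩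
  · exact ⟨![1, 0], by rw [y_vm]; simp [yL]⟩
  · exact ⟨![1, 0], by rw [y_vm]; simp [yL]⟩
  · exact ⟨![0, 1], by rw [y_vm]; simp [yL]⟩
  · exact ⟨![0, 1], by rw [y_vm]; simp [yL]⟩
  · exact ⟨![-1, 0], by rw [y_vm]; simp [yL]⟩
  · exact ⟨![-1, 0], by rw [y_vm]; simp [yL]⟩
  · exact ⟨![0, -1], by rw [y_vm]; simp [yL]⟩

theorem y_self (N r : ℤ) (hr : r = (2 * N + 5) * (2 * N + 3)) : ∀ σ j,
    Matrix.vecMul (yW N r σ) (yR N σ) j = -r := by
  intro σ j
  rw [y_vm]
  fin_cases σ <;> fin_cases j <;> simp [yW, yL] <;> linarith [hr]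

theorem y_vert (N r : ℤ) (hN : 0 ≤ N) (hr : r = (2 * N + 5) * (2 * N + 3)) : ∀ σ τ j,
    -r ≤ Matrix.vecMul (yW N r σ) (yR N τ) j := by
  have h1 : 0 ≤ N * N := mul_nonneg hN hN
  have h2 : r = 4 * (N * N) + 16 * N + 15 := by rw [hr]; ring
  have h3 : 0 < r := by linarith
  have h4 : 0 ≤ N * r := mul_nonneg hN h3.le
  have h5 : 0 ≤ N * N * r := mul_nonneg h1 h3.le
  intro σ τ j
  rw [y_vm]
  fin_cases σ <;> fin_cases τ <;> fin_cases j <;> simp [yW, yL] <;> nlinarith

theorem y_strict (N r : ℤ) (hN : 0 ≤ N) (hr : r = (2 * N + 5) * (2 * N + 3)) : ∀ σ τ j,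
    Matrix.vecMul (yW N r σ) (yR N τ) j = -r → ∃ k, ∀ i, yR N τ i j = yR N σ i k := by
  have h1 : 0 ≤ N * N := mul_nonneg hN hN
  have h2 : r = 4 * (N * N) + 16 * N + 15 := by rw [hr]; ring
  have h3 : 0 < r := by linarith
  have h4 : 0 ≤ N * r := mul_nonneg hN h3.le
  have h5 : 0 ≤ N * N * r := mul_nonneg h1 h3.le
  intro σ τ j
  rw [y_vm]
  fin_cases σ <;> fin_cases τ <;> fin_cases j <;> intro h <;>
    first
    | (refine ⟨0, ?_⟩; intro i; fin_cases i <;> rfl)
    | (refine ⟨1, ?_⟩; intro i; fin_cases i <;> rfl)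
    | (exfalso; simp [yW, yL] at h; nlinarith)

theorem y_nbr (N r : ℤ) (hN : 0 ≤ N) (hr : r = (2 * N + 5) * (2 * N + 3)) : ∀ σ i, ∃ τ,
    (∀ j, j ≠ i → Matrix.vecMul (yW N r τ) (yR N σ) j = -r) ∧
    Matrix.vecMul (yW N r τ) (yR N σ) i ≠ -r := by
  have h1 : 0 ≤ N * N := mul_nonneg hN hN
  have h2 : r = 4 * (N * N) + 16 * N + 15 := by rw [hr]; ring
  have h3 : 0 < r := by linarith
  have h4 : 0 ≤ N * r := mul_nonneg hN h3.le
  have h5 : 0 ≤ N * N * r := mul_nonneg h1 h3.le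
  have key : ∀ (σ τ : Fin 4) (i j : Fin 2), i ≠ j →
      Matrix.vecMul (yW N r τ) (yR N σ) j = -r →
      Matrix.vecMul (yW N r τ) (yR N σ) i ≠ -r →
      ∃ τ, (∀ j, j ≠ i → Matrix.vecMul (yW N r τ) (yR N σ) j = -r) ∧
        Matrix.vecMul (yW N r τ) (yR N σ) i ≠ -r := by
    intro σ τ i j hij h1 h2
    refine ⟨τ, fun j' hj' => ?_, h2⟩
    have : j' = j := by omega
    rw [this]; exact h1
  intro σ i
  fin_cases σ <;> fin_cases i
  · refine key 0 1 0 1 (by decide) ?_ ?_ <;> rw [y_vm] <;> simp [yW, yL] <;>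
      first | (intro h; nlinarith) | nlinarith
  · refine key 0 3 1 0 (by decide) ?_ ?_ <;> rw [y_vm] <;> simp [yW, yL] <;>
      first | (intro h; nlinarith) | nlinarith
  · refine key 1 2 0 1 (by decide) ?_ ?_ <;> rw [y_vm] <;> simp [yW, yL] <;>
      first | (intro h; nlinarith) | nlinarith
  · refine key 1 0 1 0 (by decide) ?_ ?_ <;> rw [y_vm] <;> simp [yW, yL] <;>
      first | (intro h; nlinarith) | nlinarith
  · refine key 2 3 0 1 (by decide) ?_ ?_ <;> rw [y_vm] <;> simp [yW, yL] <;>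
      first | (intro h; nlinarith) | nlinarith
  · refine key 2 1 1 0 (by decide) ?_ ?_ <;> rw [y_vm] <;> simp [yW, yL] <;>
      first | (intro h; nlinarith) | nlinarith
  · refine key 3 0 0 1 (by decide) ?_ ?_ <;> rw [y_vm] <;> simp [yW, yL] <;>
      first | (intro h; nlinarith) | nlinarith
  · refine key 3 2 1 0 (by decide) ?_ ?_ <;> rw [y_vm] <;> simp [yW, yL] <;>
      first | (intro h; nlinarith) | nlinarith

/-- TARGET 2: the data of `Y_N`. -/
theorem exists_yData (N : ℕ) : ∃ D : SData 2, ∃ e : D.ι = Fin 4,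
    (∀ σ, D.R σ = yR N (cast e σ)) ∧
    ∀ (m : ℕ) (u : Fin 2 → ℤ), u ∈ D.pts m ↔ (u 1 ≤ m ∧ u 0 + (2 * N + 2) * u 1 ≤ m ∧
      (2 * N + 4) * u 0 - u 1 ≤ m ∧ -((2 * N + 6) * u 1) - u 0 ≤ m) := by
  have hN : (0 : ℤ) ≤ (N : ℤ) := Int.natCast_nonneg N
  have hr : (((2 * N + 5) * (2 * N + 3) : ℕ) : ℤ) = (2 * (N : ℤ) + 5) * (2 * (N : ℤ) + 3) := by
    push_cast
    ring
  refine ⟨{ pos := by norm_num
            ι := Fin 4
            R := yR N
            det_ne := y_det N hN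
            prim := y_prim N
            r := (2 * N + 5) * (2 * N + 3)
            r_pos := Nat.one_le_iff_ne_zero.2 (by positivity)
            w := yW N (((2 * N + 5) * (2 * N + 3) : ℕ) : ℤ)
            w_self := y_self N _ hr
            vert := y_vert N _ hN hr
            strict := y_strict N _ hN hr
            nbr := y_nbr N _ hN hr
            ne := ⟨(0 : Fin 4)⟩ }, rfl, fun σ => rfl, ?_⟩
  intro m u
  have hiff : (∀ (σ : Fin 4) (j : Fin 2), -(m : ℤ) ≤ Matrix.vecMul u (yR N σ) j) ↔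
      (u 1 ≤ m ∧ u 0 + (2 * N + 2) * u 1 ≤ m ∧
      (2 * N + 4) * u 0 - u 1 ≤ m ∧ -((2 * N + 6) * u 1) - u 0 ≤ m) := by
    constructor
    · intro h
      have a1 := h 0 0
      have a2 := h 0 1
      have a3 := h 2 0
      have a4 := h 2 1
      rw [y_vm] at a1 a2 a3 a4
      simp [yL] at a1 a2 a3 a4
      refine ⟨by linarith, by linarith, by linarith, by linarith⟩
    · rintro ⟨a1, a2, a3, a4⟩ σ j
      rw [y_vm]
      fin_cases σ <;> fin_cases j <;> simp [yL] <;> linarith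
  exact hiff

variable {n : ℕ} {K : Type} [Field K] [Algebra ℂ K]

theorem cone_le_span (T : TorusField 2 K) (R : Matrix (Fin 2) (Fin 2) ℤ) (x : K)
    (hx : x ∈ cone T R) : x ∈ Submodule.span ℂ (T.χ '' Mset R 0) := by
  have h0 : (0 : Fin 2 → ℤ) ∈ Mset R 0 := by
    intro j
    simp
  have hadd : ∀ u ∈ Mset R 0, ∀ v ∈ Mset R 0, u + v ∈ Mset R 0 := by
    intro u hu v hv j
    rw [Matrix.add_vecMul, Pi.add_apply]
    have := hu j
    have := hv j
    omega
  unfold cone at hx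
  rw [← Subalgebra.mem_toSubmodule, Algebra.adjoin_eq_span] at hx
  refine Submodule.span_mono ?_ hx
  intro y hy
  have hy' : y ∈ Submonoid.closure (T.χ '' Mset R 0) := hy
  induction hy' using Submonoid.closure_induction with
  | mem x hx => exact hx
  | one => exact ⟨0, h0, T.χ_zero⟩
  | mul a b ha hb iha ihb =>
    obtain ⟨u, hu, hu'⟩ := iha ha
    obtain ⟨v, hv, hv'⟩ := ihb hb
    exact ⟨u + v, hadd u hu v hv, by rw [T.χ_add, hu', hv']⟩

/-- TARGET: if every nonzero element of the semigroup has second coordinate `≥ 1`, then the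
elements `(α, 1)` of the semigroup are irreducible, and give independent point derivations at the torus-fixed point. -/
theorem cone_der (T : TorusField 2 K) (R : Matrix (Fin 2) (Fin 2) ℤ)
    (h : ∀ u ∈ Mset R 0, u ≠ 0 → 1 ≤ u 1)
    (m : ℕ) (α : Fin m → ℤ) (hα : Function.Injective α) (hM : ∀ k, ![α k, 1] ∈ Mset R 0) :
    ∃ (p : cone T R →ₐ[ℂ] ℂ) (D : Fin m → (cone T R →ₗ[ℂ] ℂ)),
      (∀ k a b, D k (a * b) = p a * D k b + p b * D k a) ∧ LinearIndependent ℂ D := by
  classical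
  obtain ⟨ρ, hρ⟩ := LinearMap.exists_leftInverse_of_injective
    (Finsupp.linearCombination ℂ T.χ) (LinearMap.ker_eq_bot.2 T.li)
  have hρχ : ∀ u, ρ (T.χ u) = Finsupp.single u 1 := by
    intro u
    have := LinearMap.congr_fun hρ (Finsupp.single u 1)
    simpa using this
  have hnn : ∀ u ∈ Mset R 0, 0 ≤ u 1 := by
    intro u hu
    by_cases hu0 : u = 0
    · simp [hu0]
    · have := h u hu hu0
      omega
  -- product rule at zero
  have hz : ∀ u ∈ Mset R 0, ∀ v ∈ Mset R 0,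
      (Finsupp.single (u + v) (1:ℂ)) 0 = (Finsupp.single u (1:ℂ)) 0 * (Finsupp.single v (1:ℂ)) 0 := by
    intro u hu v hv
    simp only [Finsupp.single_apply]
    by_cases hu0 : u = 0
    · subst hu0
      simp
    · by_cases hv0 : v = 0
      · subst hv0
        simp
      · have h1 := h u hu hu0
        have h2 := h v hv hv0
        rw [if_neg, if_neg hu0]
        · simp
        · intro h3
          have := congrFun h3 1
          simp at this
          omega
  have hw : ∀ (c : ℤ), ∀ u ∈ Mset R 0, ∀ v ∈ Mset R 0,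
      (Finsupp.single (u + v) (1:ℂ)) ![c, 1] =
        (Finsupp.single u (1:ℂ)) 0 * (Finsupp.single v (1:ℂ)) ![c, 1] +
        (Finsupp.single v (1:ℂ)) 0 * (Finsupp.single u (1:ℂ)) ![c, 1] := by
    intro c u hu v hv
    have hc : (0 : Fin 2 → ℤ) ≠ ![c, 1] := by
      intro h3
      have := congrFun h3 1
      simp at this
    simp only [Finsupp.single_apply]
    by_cases hu0 : u = 0
    · subst hu0
      simp [hc]
    · by_cases hv0 : v = 0
      · subst hv0
        simp [hu0]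
      · have h1 := h u hu hu0
        have h2 := h v hv hv0
        rw [if_neg, if_neg hu0, if_neg hv0]
        · simp
        · intro h3
          have := congrFun h3 1
          simp at this
          omega
  have P0 : ∀ a ∈ Submodule.span ℂ (T.χ '' Mset R 0), ∀ b ∈ Submodule.span ℂ (T.χ '' Mset R 0),
      ρ (a * b) 0 = ρ a 0 * ρ b 0 := by
    intro a ha
    induction ha using Submodule.span_induction with
    | mem x hx =>
      obtain ⟨u, hu, rfl⟩ := hx
      intro b hb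
      induction hb using Submodule.span_induction with
      | mem y hy =>
        obtain ⟨v, hv, rfl⟩ := hy
        rw [← T.χ_add, hρχ, hρχ, hρχ]
        exact hz u hu v hv
      | zero => simp
      | add y z _ _ hy hz => rw [mul_add, map_add, Finsupp.add_apply, hy, hz, map_add, Finsupp.add_apply]; ring
      | smul r y _ hy => rw [mul_smul_comm, map_smul, Finsupp.smul_apply, hy, map_smul, Finsupp.smul_apply, smul_eq_mul, smul_eq_mul]; ring
    | zero => intro b _; simp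
    | add y z _ _ hy hz =>
      intro b hb
      rw [add_mul, map_add, Finsupp.add_apply, hy b hb, hz b hb, map_add, Finsupp.add_apply]; ring
    | smul r y _ hy =>
      intro b hb
      rw [smul_mul_assoc, map_smul, Finsupp.smul_apply, hy b hb, map_smul, Finsupp.smul_apply, smul_eq_mul, smul_eq_mul]; ring
  have P1 : ∀ c : ℤ, ∀ a ∈ Submodule.span ℂ (T.χ '' Mset R 0), ∀ b ∈ Submodule.span ℂ (T.χ '' Mset R 0),
      ρ (a * b) ![c, 1] = ρ a 0 * ρ b ![c, 1] + ρ b 0 * ρ a ![c, 1] := by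
    intro c a ha
    induction ha using Submodule.span_induction with
    | mem x hx =>
      obtain ⟨u, hu, rfl⟩ := hx
      intro b hb
      induction hb using Submodule.span_induction with
      | mem y hy =>
        obtain ⟨v, hv, rfl⟩ := hy
        rw [← T.χ_add, hρχ, hρχ, hρχ]
        exact hw c u hu v hv
      | zero => simp
      | add y z _ _ hy hz => simp only [mul_add, map_add, Finsupp.add_apply, hy, hz]; ring
      | smul r y _ hy => simp only [mul_smul_comm, map_smul, Finsupp.smul_apply, hy, smul_eq_mul]; ring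
    | zero => intro b _; simp
    | add y z _ _ hy hz =>
      intro b hb
      simp only [add_mul, map_add, Finsupp.add_apply, hy b hb, hz b hb]; ring
    | smul r y _ hy =>
      intro b hb
      simp only [smul_mul_assoc, map_smul, Finsupp.smul_apply, hy b hb, smul_eq_mul]; ring
  have hmem : ∀ a : cone T R, (a : K) ∈ Submodule.span ℂ (T.χ '' Mset R 0) :=
    fun a => cone_le_span T R a a.2
  refine ⟨AlgHom.ofLinearMap ((Finsupp.lapply (0 : Fin 2 → ℤ)) ∘ₗ ρ ∘ₗ (cone T R).val.toLinearMap)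
    ?_ ?_, fun k => (Finsupp.lapply (![α k, 1] : Fin 2 → ℤ)) ∘ₗ ρ ∘ₗ (cone T R).val.toLinearMap, ?_, ?_⟩
  · have : ρ (1 : K) = Finsupp.single 0 1 := by rw [← T.χ_zero, hρχ]
    simp [this]
  · intro a b
    have := P0 a (hmem a) b (hmem b)
    simpa using this
  · intro k a b
    have := P1 (α k) a (hmem a) b (hmem b)
    simpa using this
  · rw [Fintype.linearIndependent_iff]
    intro g hg l
    have h1 := LinearMap.congr_fun hg ⟨T.χ ![α l, 1], Algebra.subset_adjoin ⟨_, hM l, rfl⟩⟩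
    have h2 : ∀ i, (Finsupp.single (![α l, 1] : Fin 2 → ℤ) (1:ℂ)) ![α i, 1] = if i = l then 1 else 0 := by
      intro i
      rw [Finsupp.single_apply]
      by_cases hil : i = l
      · subst hil; simp
      · rw [if_neg hil, if_neg]
        intro h3
        have := congrFun h3 0
        simp at this
        exact hil (hα this.symm)
    simp [hρχ, h2] at h1
    exact h1

end Pool.Agent.Helper293.SD
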