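import Pool.Agent.Helper774.KSing.Main

/-!
Special degenerations of klt Fano varieties, and bounded sets of varieties.
Varieties (`Variety`), `H⁰(X, O_X(-m K_X))` (`Variety.antican m`), Fano varieties (`IsFano`) and klt
singularities (`IsKlt`) are those of `Pool.Agent.Helper774.KSing.Defs`.
-/

open CategoryTheory AlgebraicGeometry

noncomputable section

namespace Pool.Agent.Helper293.SD

open Pool.Agent.Helper774.KSing

/-- A decreasing `ℤ`-filtration `F^i R_m = F m i` of the section ring `R = ⊕_m R_m`,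
`R_m = H⁰(X, O_X(-r m K_X))`, of the variety `X`, which on each `R_m` is exhaustive (`top`) and
separated (`bot`). -/
structure Filtration (X : Variety) (r : ℕ) where
  F : ℕ → ℤ → Submodule ℂ X.K
  le : ∀ m i, F m i ≤ X.antican (r * m)
  anti : ∀ m i, F m (i + 1) ≤ F m i
  top : ∀ m, ∃ i, F m i = X.antican (r * m)
  bot : ∀ m, ∃ i, F m i = ⊥

/-- `1 ∈ F^0 R_0` and `F^i R_m · F^i' R_m' ⊆ F^(i+i') R_(m+m')`. -/
def Filtration.IsMult {X : Variety} {r : ℕ} (Φ : Filtration X r) : Prop :=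
  1 ∈ Φ.F 0 0 ∧ ∀ m m' i i', ∀ f ∈ Φ.F m i, ∀ f' ∈ Φ.F m' i', f * f' ∈ Φ.F (m + m') (i + i')

/-- The products `∏ g_k^(a_k)` of degree `∑ a_k d_k = m` and weight `∑ a_k e_k ≥ i`. -/
def products {K : Type} [Field K] {n : ℕ} (g : Fin n → K) (d : Fin n → ℕ) (e : Fin n → ℤ)
    (m : ℕ) (i : ℤ) : Set K :=
  {x | ∃ a : Fin n → ℕ, ∑ k, a k * d k = m ∧ i ≤ ∑ k, (a k : ℤ) * e k ∧ x = ∏ k, g k ^ a k}

/-- The Rees algebra `⊕_m ⊕_i F^i R_m t^(-i)` is generated over `ℂ[t]` by finitely many elements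
`g_k t^(-e_k)`, `g_k ∈ F^(e_k) R_(d_k)`. -/
def Filtration.FinGen {X : Variety} {r : ℕ} (Φ : Filtration X r) : Prop :=
  ∃ (n : ℕ) (g : Fin n → X.K) (d : Fin n → ℕ) (e : Fin n → ℤ), (∀ k, g k ∈ Φ.F (d k) (e k)) ∧
    ∀ m i, Φ.F m i ≤ Submodule.span ℂ (products g d e m i)

/-- A family of symbol maps `F^i R_m → F^i R_m / F^(i+1) R_m ⊆ H⁰(Y, O_Y(-r m K_Y))`. -/
structure Filtration.Symbols {X : Variety} {r : ℕ} (Φ : Filtration X r) (Y : Variety) where
  sym : ℕ → ℤ → X.K →ₗ[ℂ] Y.K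
  /-- the kernel on `F^i R_m` is `F^(i+1) R_m` -/
  ker : ∀ m i, ∀ f ∈ Φ.F m i, sym m i f = 0 ↔ f ∈ Φ.F m (i + 1)
  /-- the section ring of `Y` is the direct sum of the images: `indep` and `sup` -/
  indep : ∀ m, iSupIndep fun i => (Φ.F m i).map (sym m i)
  sup : ∀ m, ⨆ i, (Φ.F m i).map (sym m i) = Y.antican (r * m)

/-- The symbol maps are multiplicative. -/
def Filtration.Symbols.IsMultSym {X : Variety} {r : ℕ} {Φ : Filtration X r} {Y : Variety}
    (s : Φ.Symbols Y) : Prop :=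
  ∀ m m' i i', ∀ f ∈ Φ.F m i, ∀ f' ∈ Φ.F m' i',
    s.sym (m + m') (i + i') (f * f') = s.sym m i f * s.sym m' i' f'

/-- The Fano variety `X` has a special degeneration with central fibre the klt Fano variety `Y`, in
terms of section rings (Witt Nyström, Székelyhidi, Boucksom, Hisamoto and Jonsson).

Let `R = ⊕_m R_m`, `R_m = H⁰(X, O_X(-r m K_X))`. A special test configuration `𝒳 → 𝔸¹` (with
`-r K_{𝒳/𝔸¹}` Cartier) is `Proj` over `𝔸¹ = Spec ℂ[t]` of the algebra
`⊕_m H⁰(𝒳, O(-r m K_{𝒳/𝔸¹}))`, and by the equivariant trivialisation over `𝔸¹ ∖ {0}` this is the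
Rees algebra `⊕_m ⊕_i F^i R_m · t^(-i)` of the filtration
`F^i R_m = {f ∈ R_m : f t^(-i) extends to a section over 𝒳}`, with a grading given by
the `𝔾_m`-action. The filtration is decreasing, multiplicative, `F^i R_m = R_m` for `i ≪ 0` and
`F^i R_m = 0` for `i ≫ 0`; the Rees algebra is finitely generated, and modulo `t` it is
the associated graded ring `⊕_m ⊕_i F^i R_m / F^(i+1) R_m`, which is the section
ring `⊕_m H⁰(Y, O_Y(-r m K_Y))` of the central fibre `Y`. This isomorphism is given by the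
symbol maps.

Conversely, given such a filtration, `𝒳 := Proj_{𝔸¹} (Rees algebra)` is flat over `𝔸¹`,
equivariantly trivial over `𝔸¹ ∖ {0}` with fibre `X`, its central fibre is
`Proj ⊕_m H⁰(Y, O_Y(-r m K_Y)) = Y`; hence `𝒳` is normal, and `O_𝒳(1)` agrees with
`-r K_{𝒳/𝔸¹}` off the integral principal divisor `𝒳_0`, hence everywhere, so that `-K_{𝒳/𝔸¹}` is
`ℚ`-Cartier and relatively ample. -/
def SpecialDegeneration (X Y : Variety) : Prop :=
  ∃ (r : ℕ) (Φ : Filtration X r) (s : Φ.Symbols Y),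
    1 ≤ r ∧ Φ.IsMult ∧ Φ.FinGen ∧ s.IsMultSym

/-- The set of the central fibres of all special degenerations of `X`: the klt Fano varieties `Y` with
`X ⇝ Y`. -/
def centralFibres (X : Variety) : Set Variety :=
  {Y | Y.IsFano ∧ Y.IsKlt ∧ SpecialDegeneration X Y}

/-- `Spec ℂ` -/
def SpecC : Scheme.{0} := Spec (CommRingCat.of ℂ)

/-- The affine scheme `Spec (Y.chart i)`. -/
def chartScheme (Y : Variety) (i : Y.ι) : Scheme.{0} := Spec (CommRingCat.of (Y.chart i))

/-- The structure morphism `Spec (Y.chart i) ⟶ Spec ℂ`. -/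
def chartStr (Y : Variety) (i : Y.ι) : chartScheme Y i ⟶ SpecC :=
  Spec.map (CommRingCat.ofHom (algebraMap ℂ (Y.chart i)))

/-- The generic point `Spec Y.K ⟶ Spec (Y.chart i)`. -/
def chartGeneric (Y : Variety) (i : Y.ι) : Spec (CommRingCat.of Y.K) ⟶ chartScheme Y i :=
  Spec.map (CommRingCat.ofHom (Y.chart i).val.toRingHom)

/-- The scheme `W` over `ℂ` is (isomorphic over `ℂ` to) the variety `Y`: there are a morphism
`η : Spec Y.K ⟶ W` (the generic point) and open immersions over `ℂ` of the affine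
charts `Spec (Y.chart i)` into `W`, which cover `W` and are compatible with `η`. -/
def Represents (Y : Variety) (W : Scheme.{0}) (s : W ⟶ SpecC) : Prop :=
  ∃ (η : Spec (CommRingCat.of Y.K) ⟶ W) (j : ∀ i : Y.ι, chartScheme Y i ⟶ W),
    (∀ i, IsOpenImmersion (j i)) ∧ (∀ i, chartGeneric Y i ≫ j i = η) ∧
    (∀ i, j i ≫ s = chartStr Y i) ∧ ∀ w : W, ∃ i, w ∈ Set.range (j i)

/-- A set of varieties is bounded if there are a scheme `T` of finite type over `ℂ` and a proper
morphism `f : Z ⟶ T` such that every member of the set is isomorphic to the fibre of `f` over some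
point `t ∈ T(ℂ)`. (Here `f` is only required to be proper instead of projective; so a set
which is not bounded in this sense is not bounded in the sense of projective morphisms.) -/
def IsBounded (S : Set Variety) : Prop :=
  ∃ (T Z : Scheme.{0}) (s : T ⟶ SpecC) (f : Z ⟶ T),
    LocallyOfFiniteType s ∧ QuasiCompact s ∧ IsProper f ∧
    ∀ Y ∈ S, ∃ t : SpecC ⟶ T, t ≫ s = 𝟙 _ ∧
      Represents Y (Limits.pullback f t) (Limits.pullback.snd f t)

end Pool.Agent.Helper293.SD
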