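import Pool.Agent.Helper293.SD.Alg

/-!
From a basis with monomial leading terms to a degeneration: the filtration and its symbol maps.
-/

open Polynomial

noncomputable section

namespace Pool.Agent.Helper293.SD

/-- A graded algebra `⊕ Rm` with maps `Ψ m` to `ℂ[x, x⁻¹][N]`, a basis `H m q` (`q ∈ pts m`) of
`Rm m` with distinct leading monomials, and generators `q k ∈ pts (d k)` of the semigroup of
the pairs `(m, u)`, `u ∈ pts m`. `χ` are the characters of the target. -/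
structure Frame (K K' : Type) [Field K] [Algebra ℂ K] [Field K'] [Algebra ℂ K'] where
  Rm : ℕ → Submodule ℂ K
  pts : ℕ → Finset (Fin 2 → ℤ)
  Ψ : ℕ → K →ₗ[ℂ] P[X]
  χ : (Fin 2 → ℤ) → K'
  χ_zero : χ 0 = 1
  χ_add : ∀ u v, χ (u + v) = χ u * χ v
  li : LinearIndependent ℂ χ
  one_mem : (1 : K) ∈ Rm 0
  Ψ_one : Ψ 0 1 = 1
  mul_mem : ∀ m m' (f f' : K), f ∈ Rm m → f' ∈ Rm m' → f * f' ∈ Rm (m + m')
  Ψ_mul : ∀ m m' (f f' : K), f ∈ Rm m → f' ∈ Rm m' → Ψ (m + m') (f * f') = Ψ m f * Ψ m' f'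
  H : ℕ → (Fin 2 → ℤ) → K
  e : ℕ → (Fin 2 → ℤ) → ℕ
  H_mem : ∀ m, ∀ q ∈ pts m, H m q ∈ Rm m
  he : ∀ m, ∀ q ∈ pts m, (e m q : ℤ) = m - q 0
  H_lt : ∀ m, ∀ q ∈ pts m, LT (Ψ m (H m q)) (e m q) (q 0 + q 1)
  span : ∀ m, Rm m ≤ Submodule.span ℂ (H m '' (pts m : Set (Fin 2 → ℤ)))
  zero_mem : 0 ∈ pts 0
  n : ℕ
  d : Fin n → ℕ
  q : Fin n → Fin 2 → ℤ
  q_mem : ∀ k, q k ∈ pts (d k)
  gen : ∀ m, ∀ u ∈ pts m, ∃ a : Fin n → ℕ, ∑ k, a k * d k = m ∧ ∑ k, a k • q k = u

variable {K K' : Type} [Field K] [Algebra ℂ K] [Field K'] [Algebra ℂ K']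

namespace Frame

variable (S : Frame K K')

/-- the algebra map `x^a ↦ χ (0, a)` -/
def phi : P →ₐ[ℂ] K' :=
  AddMonoidAlgebra.lift ℂ K' ℤ
    { toFun := fun a => S.χ ![0, a.toAdd]
      map_one' := by
        have : ![0, (1 : Multiplicative ℤ).toAdd] = (0 : Fin 2 → ℤ) := by
          ext i; fin_cases i <;> simp
        rw [this, S.χ_zero]
      map_mul' := fun a b => by
        rw [← S.χ_add]
        congr 1
        ext i; fin_cases i <;> simp }

/-- The filtration: `F m i` consists of the `f ∈ Rm m` such that `Ψ m f` has `N`-degree at most `m - i`. -/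
def F (m : ℕ) (i : ℤ) : Submodule ℂ K where
  carrier := {f | f ∈ S.Rm m ∧ ∀ k : ℕ, (S.Ψ m f).coeff k ≠ 0 → (k : ℤ) ≤ m - i}
  add_mem' := by
    rintro f g ⟨hf, hf'⟩ ⟨hg, hg'⟩
    refine ⟨(S.Rm m).add_mem hf hg, fun k hk => ?_⟩
    by_contra hc
    have h1 : (S.Ψ m f).coeff k = 0 := by
      by_contra h; exact hc (hf' k h)
    have h2 : (S.Ψ m g).coeff k = 0 := by
      by_contra h; exact hc (hg' k h)
    rw [map_add, coeff_add, h1, h2, add_zero] at hk
    exact hk rfl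
  zero_mem' := ⟨(S.Rm m).zero_mem, fun k hk => by rw [map_zero, coeff_zero] at hk; exact absurd rfl hk⟩
  smul_mem' := by
    rintro c f ⟨hf, hf'⟩
    refine ⟨(S.Rm m).smul_mem c hf, fun k hk => hf' k fun h => hk ?_⟩
    rw [map_smul, coeff_smul, h, smul_zero]

/-- The symbol: `f ↦` the coefficient `c(x)` of `N^(m-i)` in `Ψ m f`, with `x^a` replaced
by `χ (i, a - i)`. -/
def sym (m : ℕ) (i : ℤ) : K →ₗ[ℂ] K' :=
  if i ≤ m then
    (LinearMap.mulLeft ℂ (S.χ ![i, -i])) ∘ₗ S.phi.toLinearMap ∘ₗ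
      ((Polynomial.lcoeff P (m - i).toNat).restrictScalars ℂ) ∘ₗ S.Ψ m
  else 0



theorem sd_phi_xp (a : ℤ) : S.phi (xp a) = S.χ ![0, a] := by
  unfold phi xp LaurentPolynomial.T
  rw [AddMonoidAlgebra.lift_single, one_smul]
  rfl

theorem sd_Psi_sum (m : ℕ) (c : (Fin 2 → ℤ) → ℂ) :
    S.Ψ m (∑ q ∈ S.pts m, c q • S.H m q) =
      ∑ q : {q // q ∈ S.pts m}, c q.1 • S.Ψ m (S.H m q.1) := by
  rw [map_sum]
  rw [← Finset.sum_coe_sort (S.pts m)]
  refine Finset.sum_congr rfl fun q _ => ?_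
  rw [map_smul]

theorem sd_inj (m : ℕ) (q q' : {q // q ∈ S.pts m}) (h1 : S.e m q.1 = S.e m q'.1)
    (h2 : q.1 0 + q.1 1 = q'.1 0 + q'.1 1) : q = q' := by
  have e1 := S.he m q.1 q.2
  have e2 := S.he m q'.1 q'.2
  rw [h1, e2] at e1
  have h0 : q.1 0 = q'.1 0 := by linarith
  have h1 : q.1 1 = q'.1 1 := by linarith
  apply Subtype.ext
  funext k
  fin_cases k
  · exact h0
  · exact h1


theorem exists_coord (m : ℕ) (f : K) (hf : f ∈ S.Rm m) :
    ∃ c : (Fin 2 → ℤ) → ℂ, f = ∑ q ∈ S.pts m, c q • S.H m q := by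
  have h1 := S.span m hf
  rw [Submodule.mem_span_image_finset_iff_exists_fun'] at h1
  obtain ⟨c, hc⟩ := h1
  exact ⟨c, hc.symm⟩

theorem sum_mem_F (m : ℕ) (i : ℤ) (c : (Fin 2 → ℤ) → ℂ) :
    ∑ q ∈ S.pts m, c q • S.H m q ∈ S.F m i ↔ ∀ q ∈ S.pts m, c q ≠ 0 → i ≤ q 0 := by
  have hmem : ∑ q ∈ S.pts m, c q • S.H m q ∈ S.Rm m :=
    Submodule.sum_mem _ fun q hq => Submodule.smul_mem _ _ (S.H_mem m q hq)
  have key := deg_sum_le (ι := {q // q ∈ S.pts m}) (fun q => S.Ψ m (S.H m q.1))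
    (fun q => S.e m q.1) (fun q => q.1 0 + q.1 1) (fun q => S.H_lt m q.1 q.2)
    (fun q q' h1 h2 => S.sd_inj m q q' h1 h2) (fun q => c q.1) ((m : ℤ) - i)
  rw [← S.sd_Psi_sum m c] at key
  constructor
  · rintro ⟨_, h⟩ q hq hcq
    have h1 := key.1 h ⟨q, hq⟩ hcq
    have h2 := S.he m q hq
    have h3 : (S.e m q : ℤ) ≤ m - i := h1
    rw [h2] at h3
    linarith
  · intro h
    refine ⟨hmem, key.2 ?_⟩
    rintro ⟨q, hq⟩ hcq
    have h2 := S.he m q hq
    have h3 := h q hq hcq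
    show (S.e m q : ℤ) ≤ m - i
    rw [h2]
    linarith

theorem sym_sum (m : ℕ) (i : ℤ) (c : (Fin 2 → ℤ) → ℂ)
    (h : ∀ q ∈ S.pts m, c q ≠ 0 → i ≤ q 0) :
    S.sym m i (∑ q ∈ S.pts m, c q • S.H m q) =
      ∑ q ∈ S.pts m, if q 0 = i then c q • S.χ q else 0 := by
  by_cases him : i ≤ m
  · have key := coeff_sum_top (ι := {q // q ∈ S.pts m}) (fun q => S.Ψ m (S.H m q.1))
      (fun q => S.e m q.1) (fun q => q.1 0 + q.1 1) (fun q => S.H_lt m q.1 q.2)
      (fun q => c q.1) ((m : ℤ) - i).toNat (by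
        rintro ⟨q, hq⟩ hcq
        have h2 := S.he m q hq
        have h3 := h q hq hcq
        show S.e m q ≤ ((m : ℤ) - i).toNat
        omega)
    rw [← S.sd_Psi_sum m c] at key
    have h1 : S.sym m i (∑ q ∈ S.pts m, c q • S.H m q) =
        S.χ ![i, -i] * S.phi ((S.Ψ m (∑ q ∈ S.pts m, c q • S.H m q)).coeff
          ((m : ℤ) - i).toNat) := by
      unfold sym
      rw [if_pos him]
      rfl
    rw [h1, key, map_sum, Finset.mul_sum, ← Finset.sum_coe_sort (S.pts m)]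
    refine Finset.sum_congr rfl ?_
    rintro ⟨q, hq⟩ -
    have h2 := S.he m q hq
    show S.χ ![i, -i] * S.phi (if S.e m q = ((m : ℤ) - i).toNat then c q • xp (q 0 + q 1) else 0) =
      if q 0 = i then c q • S.χ q else 0
    by_cases hqi : q 0 = i
    · have h3 : S.e m q = ((m : ℤ) - i).toNat := by omega
      rw [if_pos h3, if_pos hqi, map_smul, S.sd_phi_xp, mul_smul_comm, ← S.χ_add]
      congr 2
      funext k
      fin_cases k
      · simp [hqi]
      · simp [hqi]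
    · have h3 : ¬ S.e m q = ((m : ℤ) - i).toNat := by omega
      rw [if_neg h3, if_neg hqi, map_zero, mul_zero]
  · have h1 : S.sym m i (∑ q ∈ S.pts m, c q • S.H m q) = 0 := by
      unfold sym
      rw [if_neg him]
      rfl
    rw [h1]
    symm
    refine Finset.sum_eq_zero fun q hq => ?_
    have h2 := S.he m q hq
    have hqi : ¬ q 0 = i := by
      have := Int.natCast_nonneg (S.e m q)
      omega
    rw [if_neg hqi]



theorem F_mul (m m' : ℕ) (i i' : ℤ) (f f' : K) (hf : f ∈ S.F m i) (hf' : f' ∈ S.F m' i') :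
    f * f' ∈ S.F (m + m') (i + i') := by
  obtain ⟨h1, h2⟩ := hf
  obtain ⟨h1', h2'⟩ := hf'
  refine ⟨S.mul_mem m m' f f' h1 h1', fun k hk => ?_⟩
  rw [S.Ψ_mul m m' f f' h1 h1', coeff_mul] at hk
  obtain ⟨⟨a, b⟩, hab, hne⟩ := Finset.exists_ne_zero_of_sum_ne_zero hk
  have ha := h2 a (left_ne_zero_of_mul hne)
  have hb := h2' b (right_ne_zero_of_mul hne)
  rw [Finset.HasAntidiagonal.mem_antidiagonal] at hab
  simp only at hab
  push_cast
  omega

theorem sym_of_le {m : ℕ} {i : ℤ} (h : i ≤ m) (f : K) :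
    S.sym m i f = S.χ ![i, -i] * S.phi ((S.Ψ m f).coeff (m - i).toNat) := by
  unfold sym
  rw [if_pos h]
  rfl

theorem sym_of_not_le {m : ℕ} {i : ℤ} (h : ¬ i ≤ m) (f : K) : S.sym m i f = 0 := by
  unfold sym
  rw [if_neg h]
  rfl

theorem Psi_zero {m : ℕ} {i : ℤ} (h : ¬ i ≤ m) {f : K} (hf : f ∈ S.F m i) : S.Ψ m f = 0 := by
  ext1 k
  by_contra hne
  rw [coeff_zero] at hne
  have := hf.2 k hne
  omega

theorem Psi_deg {m : ℕ} {i : ℤ} {f : K} (hf : f ∈ S.F m i) :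
    (S.Ψ m f).natDegree ≤ ((m : ℤ) - i).toNat := by
  rw [natDegree_le_iff_coeff_eq_zero]
  intro N hN
  by_contra hne
  have := hf.2 N hne
  omega

theorem sym_mul (m m' : ℕ) (i i' : ℤ) (f f' : K) (hf : f ∈ S.F m i) (hf' : f' ∈ S.F m' i') :
    S.sym (m + m') (i + i') (f * f') = S.sym m i f * S.sym m' i' f' := by
  have hmul := S.Ψ_mul m m' f f' hf.1 hf'.1
  by_cases h : i ≤ m
  · by_cases h' : i' ≤ m'
    · have h'' : i + i' ≤ ((m + m' : ℕ) : ℤ) := by push_cast; omega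
      rw [S.sym_of_le h, S.sym_of_le h', S.sym_of_le h'', hmul]
      have e1 : (((m + m' : ℕ) : ℤ) - (i + i')).toNat
          = ((m : ℤ) - i).toNat + ((m' : ℤ) - i').toNat := by
        push_cast; omega
      rw [e1, coeff_mul_add_eq_of_natDegree_le (S.Psi_deg hf) (S.Psi_deg hf'), map_mul]
      have e2 : (![i + i', -(i + i')] : Fin 2 → ℤ) = ![i, -i] + ![i', -i'] := by
        ext j; fin_cases j
        · simp
        · simp; ring
      rw [e2, S.χ_add]
      ring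
    · rw [S.sym_of_not_le h', mul_zero]
      by_cases h'' : i + i' ≤ ((m + m' : ℕ) : ℤ)
      · rw [S.sym_of_le h'', hmul, S.Psi_zero h' hf', mul_zero, coeff_zero, map_zero, mul_zero]
      · rw [S.sym_of_not_le h'']
  · rw [S.sym_of_not_le h, zero_mul]
    by_cases h'' : i + i' ≤ ((m + m' : ℕ) : ℤ)
    · rw [S.sym_of_le h'', hmul, S.Psi_zero h hf, zero_mul, coeff_zero, map_zero, mul_zero]
    · rw [S.sym_of_not_le h'']

theorem F_one : (1 : K) ∈ S.F 0 0 := by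
  refine ⟨S.one_mem, fun k hk => ?_⟩
  rw [S.Ψ_one, coeff_one] at hk
  by_cases h : k = 0
  · subst h; simp
  · rw [if_neg h] at hk
    exact absurd rfl hk

theorem sym_one : S.sym 0 0 1 = 1 := by
  have h : (0 : ℤ) ≤ ((0 : ℕ) : ℤ) := by simp
  rw [S.sym_of_le h, S.Ψ_one]
  have e2 : (![(0 : ℤ), -0] : Fin 2 → ℤ) = 0 := by
    ext j; fin_cases j <;> simp
  rw [e2, S.χ_zero]
  simp



theorem sym_eq_zero (m : ℕ) (i : ℤ) (f : K) (hf : f ∈ S.F m i) :
    S.sym m i f = 0 ↔ f ∈ S.F m (i + 1) := by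
  classical
  obtain ⟨c, hc⟩ := S.exists_coord m f hf.1
  subst hc
  have h1 := (S.sum_mem_F m i c).1 hf
  rw [S.sym_sum m i c h1, S.sum_mem_F]
  constructor
  · intro h0 q hq hcq
    have h2 := h1 q hq hcq
    have h3 : ∑ q ∈ S.pts m, (if q 0 = i then c q else 0) • S.χ q = 0 := by
      rw [← h0]
      refine Finset.sum_congr rfl (fun q _ => ?_)
      split_ifs
      · rfl
      · rw [zero_smul]
    have h4 := linearIndependent_iff'.1 S.li (S.pts m) (fun q => if q 0 = i then c q else 0) h3 q hq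
    by_contra h5
    have h6 : q 0 = i := by omega
    have h7 : (if q 0 = i then c q else 0) = 0 := h4
    rw [if_pos h6] at h7
    exact hcq h7
  · intro h2
    apply Finset.sum_eq_zero
    intro q hq
    by_cases h3 : q 0 = i
    · rw [if_pos h3]
      have h4 : c q = 0 := by
        by_contra h5
        have := h2 q hq h5
        omega
      rw [h4, zero_smul]
    · rw [if_neg h3]

theorem F_anti (m : ℕ) (i i' : ℤ) (h : i ≤ i') : S.F m i' ≤ S.F m i := by
  intro f hf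
  refine ⟨hf.1, fun k hk => ?_⟩
  have := hf.2 k hk
  omega

theorem F_top (m : ℕ) : ∃ i, S.F m i = S.Rm m := by
  refine ⟨-(∑ q ∈ S.pts m, |q 0|), le_antisymm (fun f hf => hf.1) (fun f hf => ?_)⟩
  obtain ⟨c, hc⟩ := S.exists_coord m f hf
  rw [hc, S.sum_mem_F]
  intro q hq _
  have h1 : |q 0| ≤ ∑ q ∈ S.pts m, |q 0| :=
    Finset.single_le_sum (f := fun q : Fin 2 → ℤ => |q 0|) (fun q _ => abs_nonneg _) hq
  have h2 := neg_abs_le (q 0)
  linarith

theorem F_bot (m : ℕ) : ∃ i, S.F m i = ⊥ := by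
  refine ⟨(∑ q ∈ S.pts m, |q 0|) + 1, ?_⟩
  rw [Submodule.eq_bot_iff]
  intro f hf
  obtain ⟨c, hc⟩ := S.exists_coord m f hf.1
  rw [hc, S.sum_mem_F] at hf
  rw [hc]
  apply Finset.sum_eq_zero
  intro q hq
  have h0 : c q = 0 := by
    by_contra h
    have h3 := hf q hq h
    have h1 : |q 0| ≤ ∑ q ∈ S.pts m, |q 0| :=
      Finset.single_le_sum (f := fun q : Fin 2 → ℤ => |q 0|) (fun q _ => abs_nonneg _) hq
    have h2 := le_abs_self (q 0)
    linarith
  rw [h0, zero_smul]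



theorem map_sym (m : ℕ) (i : ℤ) : (S.F m i).map (S.sym m i) =
    Submodule.span ℂ (S.χ '' {q | q ∈ S.pts m ∧ q 0 = i}) := by
  classical
  apply le_antisymm
  · rintro _ ⟨f, hf, rfl⟩
    have hf' : f ∈ S.F m i := hf
    obtain ⟨c, rfl⟩ := S.exists_coord m f hf'.1
    have h := (S.sum_mem_F m i c).1 hf'
    rw [S.sym_sum m i c h]
    apply Submodule.sum_mem
    intro q hq
    split_ifs with hh
    · exact Submodule.smul_mem _ _ (Submodule.subset_span ⟨q, ⟨hq, hh⟩, rfl⟩)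
    · exact Submodule.zero_mem _
  · rw [Submodule.span_le]
    rintro _ ⟨q, ⟨hq, hqi⟩, rfl⟩
    have hc : ∀ q' ∈ S.pts m, (if q' = q then (1 : ℂ) else 0) ≠ 0 → i ≤ q' 0 := by
      intro q' _ h
      have : q' = q := by
        by_contra hne
        exact h (if_neg hne)
      rw [this, hqi]
    refine ⟨∑ q' ∈ S.pts m, (if q' = q then (1 : ℂ) else 0) • S.H m q',
      (S.sum_mem_F m i (fun q' => if q' = q then (1 : ℂ) else 0)).2 hc, ?_⟩
    rw [S.sym_sum m i (fun q' => if q' = q then (1 : ℂ) else 0) hc]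
    rw [Finset.sum_eq_single q]
    · simp [hqi]
    · intro b _ hb
      simp [hb]
    · intro h
      exact absurd hq h

theorem sym_indep (m : ℕ) : iSupIndep fun i => (S.F m i).map (S.sym m i) := by
  classical
  rw [iSupIndep_def]
  intro i
  have h1 : (⨆ j, ⨆ (_ : j ≠ i), (S.F m j).map (S.sym m j)) ≤
      Submodule.span ℂ (S.χ '' {q | q 0 ≠ i}) := by
    apply iSup_le
    intro j
    apply iSup_le
    intro hj
    rw [S.map_sym]
    apply Submodule.span_mono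
    apply Set.image_mono
    rintro q ⟨_, hq⟩
    show q 0 ≠ i
    rw [hq]
    exact hj
  refine Disjoint.mono_right h1 ?_
  rw [S.map_sym]
  apply S.li.disjoint_span_image
  rw [Set.disjoint_left]
  rintro q ⟨_, hq⟩ hq'
  exact hq' hq

theorem sym_sup (m : ℕ) : ⨆ i, (S.F m i).map (S.sym m i) =
    Submodule.span ℂ (S.χ '' (S.pts m : Set (Fin 2 → ℤ))) := by
  simp only [S.map_sym]
  rw [← Submodule.span_iUnion, ← Set.image_iUnion]
  congr 2
  ext q
  simp



theorem F_fg_pow (m : ℕ) (i : ℤ) (f : K) (u : Fin 2 → ℤ) (hf : f ∈ S.F m i)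
    (hs : S.sym m i f = S.χ u) (j : ℕ) :
    f ^ j ∈ S.F (j * m) ((j : ℤ) * i) ∧ S.sym (j * m) ((j : ℤ) * i) (f ^ j) = S.χ (j • u) := by
  induction j with
  | zero =>
    have e1 : 0 * m = 0 := Nat.zero_mul m
    have e2 : ((0 : ℕ) : ℤ) * i = 0 := by simp
    rw [e1, e2, pow_zero, zero_smul, S.χ_zero]
    exact ⟨S.F_one, S.sym_one⟩
  | succ j ih =>
    have e1 : (j + 1) * m = j * m + m := Nat.succ_mul j m
    have e2 : ((j + 1 : ℕ) : ℤ) * i = (j : ℤ) * i + i := by push_cast; ring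
    rw [e1, e2, pow_succ]
    refine ⟨S.F_mul _ _ _ _ _ _ ih.1 hf, ?_⟩
    rw [S.sym_mul _ _ _ _ _ _ ih.1 hf, ih.2, hs, ← S.χ_add, succ_nsmul]

theorem F_fg_prod (g : Fin S.n → K) (hg : ∀ k, g k ∈ S.F (S.d k) (S.q k 0))
    (hs : ∀ k, S.sym (S.d k) (S.q k 0) (g k) = S.χ (S.q k)) (a : Fin S.n → ℕ)
    (s : Finset (Fin S.n)) :
    ∏ k ∈ s, g k ^ a k ∈ S.F (∑ k ∈ s, a k * S.d k) (∑ k ∈ s, (a k : ℤ) * S.q k 0) ∧
      S.sym (∑ k ∈ s, a k * S.d k) (∑ k ∈ s, (a k : ℤ) * S.q k 0) (∏ k ∈ s, g k ^ a k) =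
        S.χ (∑ k ∈ s, a k • S.q k) := by
  classical
  induction s using Finset.induction_on with
  | empty =>
    simp only [Finset.prod_empty, Finset.sum_empty]
    rw [S.χ_zero]
    exact ⟨S.F_one, S.sym_one⟩
  | insert k s hk ih =>
    rw [Finset.prod_insert hk, Finset.sum_insert hk, Finset.sum_insert hk, Finset.sum_insert hk]
    have h1 := S.F_fg_pow _ _ _ _ (hg k) (hs k) (a k)
    refine ⟨S.F_mul _ _ _ _ _ _ h1.1 ih.1, ?_⟩
    rw [S.sym_mul _ _ _ _ _ _ h1.1 ih.1, h1.2, ih.2, ← S.χ_add]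

/-- The Rees algebra of the filtration is finitely generated. -/
theorem F_fg : ∃ g : Fin S.n → K, (∀ k, g k ∈ S.F (S.d k) (S.q k 0)) ∧
    ∀ m i, S.F m i ≤ Submodule.span ℂ {x | ∃ a : Fin S.n → ℕ,
      ∑ k, a k * S.d k = m ∧ i ≤ ∑ k, (a k : ℤ) * S.q k 0 ∧ x = ∏ k, g k ^ a k} := by
  classical
  have hsingle : ∀ k, S.H (S.d k) (S.q k) =
      ∑ q ∈ S.pts (S.d k), (if q = S.q k then (1 : ℂ) else 0) • S.H (S.d k) q := by
    intro k
    rw [Finset.sum_eq_single_of_mem (S.q k) (S.q_mem k)]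
    · rw [if_pos rfl, one_smul]
    · intro b _ hb
      rw [if_neg hb, zero_smul]
  have hcond : ∀ k, ∀ q ∈ S.pts (S.d k), (if q = S.q k then (1 : ℂ) else 0) ≠ 0 →
      S.q k 0 ≤ q 0 := by
    intro k q _ hne
    by_cases h : q = S.q k
    · rw [h]
    · rw [if_neg h] at hne
      exact absurd rfl hne
  have hg : ∀ k, S.H (S.d k) (S.q k) ∈ S.F (S.d k) (S.q k 0) := by
    intro k
    rw [hsingle k]
    exact (S.sum_mem_F _ _ _).2 (hcond k)
  have hs : ∀ k, S.sym (S.d k) (S.q k 0) (S.H (S.d k) (S.q k)) = S.χ (S.q k) := by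
    intro k
    rw [hsingle k, S.sym_sum _ _ _ (hcond k), Finset.sum_eq_single_of_mem (S.q k) (S.q_mem k)]
    · rw [if_pos rfl, if_pos rfl, one_smul]
    · intro b _ hb
      rw [if_neg hb, zero_smul, ite_self]
  refine ⟨fun k => S.H (S.d k) (S.q k), hg, fun m => ?_⟩
  obtain ⟨T, hT⟩ : ∃ T : ℤ → Set K, ∀ i, T i = {x | ∃ a : Fin S.n → ℕ,
      ∑ k, a k * S.d k = m ∧ i ≤ ∑ k, (a k : ℤ) * S.q k 0 ∧
        x = ∏ k, S.H (S.d k) (S.q k) ^ a k} := ⟨_, fun i => rfl⟩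
  have hTmono : ∀ i, Submodule.span ℂ (T (i + 1)) ≤ Submodule.span ℂ (T i) := by
    intro i
    apply Submodule.span_mono
    intro x hx
    rw [hT] at hx ⊢
    obtain ⟨a, h1, h2, h3⟩ := hx
    exact ⟨a, h1, by linarith, h3⟩
  have hstep : ∀ i, S.F m (i + 1) ≤ Submodule.span ℂ (T (i + 1)) →
      S.F m i ≤ Submodule.span ℂ (T i) := by
    intro i hi f hf
    have hfR : f ∈ S.Rm m := hf.1
    obtain ⟨c, hc⟩ := S.exists_coord m f hfR
    have hci : ∀ q ∈ S.pts m, c q ≠ 0 → i ≤ q 0 := by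
      rw [← S.sum_mem_F, ← hc]
      exact hf
    have hsym : S.sym m i f = ∑ q ∈ S.pts m, if q 0 = i then c q • S.χ q else 0 := by
      rw [hc]
      exact S.sym_sum m i c hci
    have hgen : ∀ q : Fin 2 → ℤ, ∃ a : Fin S.n → ℕ, q ∈ S.pts m →
        (∑ k, a k * S.d k = m ∧ ∑ k, a k • S.q k = q) := by
      intro q
      by_cases hq : q ∈ S.pts m
      · obtain ⟨a, ha⟩ := S.gen m q hq
        exact ⟨a, fun _ => ha⟩
      · exact ⟨fun _ => 0, fun h => absurd h hq⟩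
    choose a ha using hgen
    have hprop : ∀ q ∈ S.pts m, q 0 = i →
        (∏ k, S.H (S.d k) (S.q k) ^ a q k ∈ S.F m i ∧
          S.sym m i (∏ k, S.H (S.d k) (S.q k) ^ a q k) = S.χ q ∧
          ∏ k, S.H (S.d k) (S.q k) ^ a q k ∈ T i) := by
      intro q hq hqi
      obtain ⟨h1, h2⟩ := ha q hq
      have h3 : ∑ k, (a q k : ℤ) * S.q k 0 = i := by
        have h4 := congrFun h2 0
        rw [Finset.sum_apply] at h4
        rw [← hqi, ← h4]
        refine Finset.sum_congr rfl fun k _ => ?_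
        simp
      have h5 := S.F_fg_prod (fun k => S.H (S.d k) (S.q k)) hg hs (a q) Finset.univ
      rw [h1, h2, h3] at h5
      refine ⟨h5.1, h5.2, ?_⟩
      rw [hT]
      exact ⟨a q, h1, h3.ge, rfl⟩
    obtain ⟨f', hf'⟩ : ∃ f' : K, f' = ∑ q ∈ S.pts m,
        if q 0 = i then c q • ∏ k, S.H (S.d k) (S.q k) ^ a q k else 0 := ⟨_, rfl⟩
    have hf'F : f' ∈ S.F m i := by
      rw [hf']
      refine Submodule.sum_mem _ fun q hq => ?_
      by_cases hqi : q 0 = i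
      · rw [if_pos hqi]
        exact Submodule.smul_mem _ _ (hprop q hq hqi).1
      · rw [if_neg hqi]
        exact Submodule.zero_mem _
    have hf'T : f' ∈ Submodule.span ℂ (T i) := by
      rw [hf']
      refine Submodule.sum_mem _ fun q hq => ?_
      by_cases hqi : q 0 = i
      · rw [if_pos hqi]
        exact Submodule.smul_mem _ _ (Submodule.subset_span (hprop q hq hqi).2.2)
      · rw [if_neg hqi]
        exact Submodule.zero_mem _
    have hf's : S.sym m i f' = S.sym m i f := by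
      rw [hsym, hf', map_sum]
      refine Finset.sum_congr rfl fun q hq => ?_
      by_cases hqi : q 0 = i
      · rw [if_pos hqi, if_pos hqi, map_smul, (hprop q hq hqi).2.1]
      · rw [if_neg hqi, if_neg hqi, map_zero]
    have hdiff : f - f' ∈ S.F m (i + 1) := by
      rw [← S.sym_eq_zero m i (f - f') (Submodule.sub_mem _ hf hf'F), map_sub, hf's, sub_self]
    have h6 : f - f' ∈ Submodule.span ℂ (T i) := hTmono i (hi hdiff)
    have h7 := Submodule.add_mem _ h6 hf'T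
    rwa [sub_add_cancel] at h7
  obtain ⟨i0, hi0⟩ := S.F_bot m
  have hdown : ∀ j : ℕ, S.F m (i0 - j) ≤ Submodule.span ℂ (T (i0 - j)) := by
    intro j
    induction j with
    | zero =>
      rw [Nat.cast_zero, sub_zero, hi0]
      exact bot_le
    | succ j ih =>
      apply hstep
      have e : i0 - ((j + 1 : ℕ) : ℤ) + 1 = i0 - j := by push_cast; ring
      rw [e]
      exact ih
  intro i
  rw [← hT]
  rcases le_total i i0 with h | h
  · obtain ⟨j, hj⟩ := Int.le.dest h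
    have e : i = i0 - j := by omega
    rw [e]
    exact hdown j
  · intro x hx
    have h8 := S.F_anti m i0 i h hx
    rw [hi0, Submodule.mem_bot] at h8
    rw [h8]
    exact Submodule.zero_mem _

end Frame

end Pool.Agent.Helper293.SD
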