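import Mathlib

/-!
A bound for the dimension of tangent spaces in a family of finite type.
-/

open CategoryTheory AlgebraicGeometry

namespace Pool.Agent.Helper293.SD

theorem tangent_epi {B C : Type} [CommRing B] [CommRing C] [Algebra ℂ B] [Algebra ℂ C]
    (φ : B →ₐ[ℂ] C)
    (hφ : ∀ (E : Type) [CommRing E] (a b : C →+* E),
      a.comp φ.toRingHom = b.comp φ.toRingHom → a = b)
    (N : ℕ) (x : Fin N → B) (hx : Algebra.adjoin ℂ (Set.range x) = ⊤)
    (p : C →ₐ[ℂ] ℂ) (n : ℕ) (D : Fin n → (C →ₗ[ℂ] ℂ))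
    (hD : ∀ k a b, D k (a * b) = p a * D k b + p b * D k a)
    (hli : LinearIndependent ℂ D) : n ≤ N := by
  classical
  have key : ∀ E : C →ₗ[ℂ] ℂ, (∀ a b, E (a * b) = p a * E b + p b * E a) →
      (∀ i, E (φ (x i)) = 0) → E = 0 := by
    intro E hE hx0
    have h1 : E 1 = 0 := by
      have h := hE 1 1
      rw [mul_one, map_one p, one_mul] at h
      linear_combination -h
    have hB : ∀ b : B, E (φ b) = 0 := by
      intro b
      have hb : b ∈ Algebra.adjoin ℂ (Set.range x) := by rw [hx]; trivial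
      induction hb using Algebra.adjoin_induction with
      | mem y hy => obtain ⟨i, rfl⟩ := hy; exact hx0 i
      | algebraMap r => rw [φ.commutes, Algebra.algebraMap_eq_smul_one, map_smul, h1, smul_zero]
      | add a b _ _ ha hb => rw [map_add, map_add, ha, hb, add_zero]
      | mul a b _ _ ha hb => rw [map_mul, hE, ha, hb]; ring
    let f : C →+* TrivSqZeroExt ℂ ℂ :=
      { toFun := fun c => TrivSqZeroExt.inl (p c) + TrivSqZeroExt.inr (E c)
        map_one' := by
          ext <;> simp [h1]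
        map_zero' := by
          ext <;> simp
        map_add' := fun a b => by
          ext <;> simp
        map_mul' := fun a b => by
          ext
          · simp
          · simp [hE, mul_comm] }
    let g : C →+* TrivSqZeroExt ℂ ℂ := (TrivSqZeroExt.inlHom ℂ ℂ).comp p.toRingHom
    have hfg : f = g := hφ _ f g (by
      ext b
      · simp [f, g]
      · simp [f, g, hB])
    ext c
    have h := congrArg (fun h => TrivSqZeroExt.snd (h c)) hfg
    simpa [f, g] using h
  let T : (C →ₗ[ℂ] ℂ) →ₗ[ℂ] (Fin N → ℂ) := LinearMap.pi (fun i => LinearMap.applyₗ (φ (x i)))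
  have hT : LinearIndependent ℂ (fun k => T (D k)) := by
    rw [Fintype.linearIndependent_iff] at hli ⊢
    intro g hg
    apply hli g
    apply key
    · intro a b
      simp only [LinearMap.sum_apply, LinearMap.smul_apply, hD, smul_eq_mul, Finset.mul_sum]
      rw [← Finset.sum_add_distrib]
      refine Finset.sum_congr rfl (fun k _ => ?_)
      ring
    · intro i
      have := congrFun hg i
      simpa [T] using this
  have := hT.fintype_card_le_finrank
  simpa using this



noncomputable def btToTSZ {A : Type} [CommRing A] [Algebra ℂ A] (p : A →ₐ[ℂ] ℂ) (D : A →ₗ[ℂ] ℂ)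
    (hD : ∀ a b, D (a * b) = p a * D b + p b * D a) : A →ₐ[ℂ] TrivSqZeroExt ℂ ℂ :=
  have h1 : D 1 = 0 := by
    have := hD 1 1
    simp only [mul_one, map_one, one_mul] at this
    linear_combination -this
  AlgHom.ofLinearMap
    { toFun := fun x => (TrivSqZeroExt.inl (p x) + TrivSqZeroExt.inr (D x) : TrivSqZeroExt ℂ ℂ)
      map_add' := by
        intro x y
        ext <;> simp
      map_smul' := by
        intro c x
        ext <;> simp }
    (by ext <;> simp [h1])
    (by
      intro x y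
      ext
      · simp
      · simp [hD]; ring)

/-- TARGET 1. A point derivation on `A` at `p` extends to the localisation `A_h`, `p h ≠ 0`. -/
theorem der_localization {A : Type} [CommRing A] [Algebra ℂ A] (p : A →ₐ[ℂ] ℂ) (h : A) (hp : p h ≠ 0)
    (n : ℕ) (D : Fin n → (A →ₗ[ℂ] ℂ)) (hD : ∀ k a b, D k (a * b) = p a * D k b + p b * D k a)
    (hli : LinearIndependent ℂ D) :
    ∃ (p' : Localization.Away h →ₐ[ℂ] ℂ) (D' : Fin n → (Localization.Away h →ₗ[ℂ] ℂ)),
      (∀ k a b, D' k (a * b) = p' a * D' k b + p' b * D' k a) ∧ LinearIndependent ℂ D' := by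
  have hu : ∀ y : Submonoid.powers h, IsUnit (p (y : A)) := by
    rintro ⟨y, m, rfl⟩
    simp only [map_pow]
    exact (isUnit_iff_ne_zero.mpr hp).pow m
  have huk : ∀ k, ∀ y : Submonoid.powers h, IsUnit (btToTSZ p (D k) (hD k) (y : A)) := by
    intro k y
    rw [TrivSqZeroExt.isUnit_iff_isUnit_fst]
    have : (btToTSZ p (D k) (hD k) (y : A)).fst = p y := by simp [btToTSZ]
    rw [this]
    exact hu y
  let p' : Localization.Away h →ₐ[ℂ] ℂ := IsLocalization.liftAlgHom (M := Submonoid.powers h) hu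
  let F : Fin n → (Localization.Away h →ₐ[ℂ] TrivSqZeroExt ℂ ℂ) := fun k =>
    IsLocalization.liftAlgHom (M := Submonoid.powers h) (huk k)
  have hfst : ∀ k, (TrivSqZeroExt.fstHom ℂ ℂ ℂ).comp (F k) = p' := by
    intro k
    apply IsLocalization.algHom_ext (Submonoid.powers h)
    ext x
    have e1 : F k (algebraMap A (Localization.Away h) x) = btToTSZ p (D k) (hD k) x :=
      IsLocalization.lift_eq (M := Submonoid.powers h) (huk k) x
    have e2 : p' (algebraMap A (Localization.Away h) x) = p x :=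
      IsLocalization.lift_eq (M := Submonoid.powers h) hu x
    show (F k (algebraMap A (Localization.Away h) x)).fst = p' (algebraMap A (Localization.Away h) x)
    rw [e1, e2]
    simp [btToTSZ]
  let D' : Fin n → (Localization.Away h →ₗ[ℂ] ℂ) := fun k =>
    (TrivSqZeroExt.sndHom ℂ ℂ).comp (F k).toLinearMap
  refine ⟨p', D', ?_, ?_⟩
  · intro k a b
    have ha : (F k a).fst = p' a := by rw [← hfst k]; rfl
    have hb : (F k b).fst = p' b := by rw [← hfst k]; rfl
    show (F k (a * b)).snd = p' a * (F k b).snd + p' b * (F k a).snd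
    rw [map_mul, TrivSqZeroExt.snd_mul, ha, hb]
    simp
    ring
  · let R : (Localization.Away h →ₗ[ℂ] ℂ) →ₗ[ℂ] (A →ₗ[ℂ] ℂ) :=
      LinearMap.lcomp ℂ ℂ (IsScalarTower.toAlgHom ℂ A (Localization.Away h)).toLinearMap
    apply LinearIndependent.of_comp R
    have : R ∘ D' = D := by
      funext k
      ext x
      simp [R, D', F, btToTSZ]
    rw [this]
    exact hli

theorem bt_exists_gens {B : Type} [CommRing B] [Algebra ℂ B] (h : Algebra.FiniteType ℂ B) :
    ∃ (N : ℕ) (x : Fin N → B), Algebra.adjoin ℂ (Set.range x) = ⊤ := by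
  obtain ⟨n, f, hf⟩ := Algebra.FiniteType.iff_quotient_mvPolynomial''.mp h
  refine ⟨n, fun i => f (MvPolynomial.X i), ?_⟩
  have : Set.range (fun i => f (MvPolynomial.X i)) = f '' (Set.range MvPolynomial.X) := by
    rw [← Set.range_comp]; rfl
  rw [this, ← AlgHom.map_adjoin, MvPolynomial.adjoin_range_X, Algebra.map_top]
  exact AlgHom.range_eq_top f |>.mpr hf

theorem bt_local_bound {Z : Scheme.{0}} (s : Z ⟶ Spec (CommRingCat.of ℂ))
    [LocallyOfFiniteType s] (B : CommRingCat.{0}) (f : Spec B ⟶ Z) [IsOpenImmersion f] :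
    ∃ N₀ : ℕ, ∀ (A : Type) [CommRing A] [Algebra ℂ A] (g : Spec (CommRingCat.of A) ⟶ Z),
      Mono g → g ≫ s = Spec.map (CommRingCat.ofHom (algebraMap ℂ A)) →
      ∀ (p : A →ₐ[ℂ] ℂ),
        (g (⟨RingHom.ker p.toRingHom, RingHom.ker_isPrime _⟩ : PrimeSpectrum A) ∈ Set.range f) →
        ∀ (n : ℕ) (D : Fin n → (A →ₗ[ℂ] ℂ)),
        (∀ k a b, D k (a * b) = p a * D k b + p b * D k a) → LinearIndependent ℂ D → n ≤ N₀ := by
  obtain ⟨φ, hφ⟩ : ∃ φ : CommRingCat.of ℂ ⟶ B, Spec.map φ = f ≫ s :=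
    ⟨Spec.preimage (f ≫ s), Spec.map_preimage _⟩
  have hft : LocallyOfFiniteType (Spec.map φ) := by
    rw [hφ]; infer_instance
  have hft' : φ.hom.FiniteType := HasRingHomProperty.Spec_iff.mp hft
  let algB : Algebra ℂ B := φ.hom.toAlgebra
  obtain ⟨N, x, hx⟩ := bt_exists_gens (B := B) hft'
  refine ⟨N, ?_⟩
  intro A _ _ g hg hgs p hmem n D hD hli
  -- find h
  let x₀ : PrimeSpectrum A := ⟨RingHom.ker p.toRingHom, RingHom.ker_isPrime _⟩
  have hopen : IsOpen (g ⁻¹' (Set.range f)) :=
    (IsOpenImmersion.isOpen_range f).preimage g.continuous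
  obtain ⟨_, ⟨h, rfl⟩, hh, hsub⟩ :=
    PrimeSpectrum.isTopologicalBasis_basic_opens.exists_subset_of_mem_open
      (show x₀ ∈ _ from hmem) hopen
  have hph : p h ≠ 0 := by
    intro h0
    apply hh
    show h ∈ RingHom.ker p.toRingHom
    exact h0
  obtain ⟨p', D', hD', hli'⟩ := der_localization p h hph n D hD hli
  -- the basic open
  let L : Type := Localization.Away h
  let j : Spec (CommRingCat.of L) ⟶ Spec (CommRingCat.of A) :=
    Spec.map (CommRingCat.ofHom (algebraMap A L))
  have hj : IsOpenImmersion j := by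
    exact IsOpenImmersion.of_isLocalization h
  have hjr : Set.range j = (PrimeSpectrum.basicOpen h : Set (PrimeSpectrum A)) := by
    exact PrimeSpectrum.localization_away_comap_range L h
  have hr : Set.range (j ≫ g) ⊆ Set.range f := by
    rintro _ ⟨y, rfl⟩
    have : j y ∈ g ⁻¹' (Set.range f) := hsub (by
      have : j y ∈ Set.range j := ⟨y, rfl⟩
      rw [hjr] at this
      exact this)
    simpa using this
  let l : Spec (CommRingCat.of L) ⟶ Spec B := IsOpenImmersion.lift f (j ≫ g) hr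
  have hl : l ≫ f = j ≫ g := IsOpenImmersion.lift_fac f (j ≫ g) hr
  have hml : Mono l := by
    have h1 : Mono (j ≫ g) := mono_comp _ _
    rw [← hl] at h1
    exact mono_of_mono l f
  obtain ⟨ψ, hψ⟩ : ∃ ψ : B ⟶ CommRingCat.of L, Spec.map ψ = l :=
    ⟨Spec.preimage l, Spec.map_preimage _⟩
  have hψφ : φ ≫ ψ = CommRingCat.ofHom (algebraMap ℂ L) := by
    apply Spec.map_injective
    rw [Spec.map_comp, hψ, hφ, ← Category.assoc, hl, Category.assoc, hgs]
    show Spec.map _ ≫ Spec.map _ = _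
    rw [← Spec.map_comp, ← CommRingCat.ofHom_comp, ← IsScalarTower.algebraMap_eq ℂ A L]
  let Ψ : B →ₐ[ℂ] L :=
    { ψ.hom with
      commutes' := by
        intro c
        have := congrArg (fun q : CommRingCat.of ℂ ⟶ CommRingCat.of L => q.hom c) hψφ
        exact this }
  refine tangent_epi (B := B) (C := L) Ψ ?_ N x hx p' n D' hD' hli'
  intro E _ a b hab
  have h1 : ψ ≫ CommRingCat.ofHom a = ψ ≫ CommRingCat.ofHom b := by
    ext y
    exact congrArg (fun q : B →+* E => q y) hab
  have h2 : Spec.map (CommRingCat.ofHom a) ≫ l = Spec.map (CommRingCat.ofHom b) ≫ l := by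
    rw [← hψ, ← Spec.map_comp, ← Spec.map_comp, h1]
  have h3 := (cancel_mono l).mp h2
  have h4 := Spec.map_injective h3
  have := congrArg CommRingCat.Hom.hom h4
  simpa using this

theorem bounded_tangent_mono {Z : Scheme.{0}} (s : Z ⟶ Spec (CommRingCat.of ℂ))
    [LocallyOfFiniteType s] [QuasiCompact s] :
    ∃ N₀ : ℕ, ∀ (A : Type) [CommRing A] [Algebra ℂ A] (g : Spec (CommRingCat.of A) ⟶ Z),
      Mono g → g ≫ s = Spec.map (CommRingCat.ofHom (algebraMap ℂ A)) →
      ∀ (p : A →ₐ[ℂ] ℂ) (n : ℕ) (D : Fin n → (A →ₗ[ℂ] ℂ)),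
        (∀ k a b, D k (a * b) = p a * D k b + p b * D k a) → LinearIndependent ℂ D → n ≤ N₀ := by
  have hc : CompactSpace Z := QuasiCompact.compactSpace_of_compactSpace s
  have hex : ∀ z : Z, ∃ (R : CommRingCat.{0}) (f : Spec R ⟶ Z), IsOpenImmersion f ∧ z ∈ Set.range f := by
    intro z
    obtain ⟨R, f, hf, hz, _⟩ := Scheme.exists_affine_mem_range_and_range_subset
      (X := Z) (x := z) (U := ⊤) trivial
    exact ⟨R, f, hf, hz⟩
  choose R f hf hz using hex
  have hb : ∀ z, _ := fun z => bt_local_bound s (R z) (f z)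
  choose N hN using hb
  obtain ⟨t, ht⟩ := isCompact_univ.elim_nhds_subcover (fun z => Set.range (f z))
    (fun z _ => (IsOpenImmersion.isOpen_range (f z)).mem_nhds (hz z))
  refine ⟨t.sup N, ?_⟩
  intro A _ _ g hg hgs p n D hD hli
  have hm := ht.2 (Set.mem_univ (g (⟨RingHom.ker p.toRingHom, RingHom.ker_isPrime _⟩ : PrimeSpectrum A)))
  simp only [Set.mem_iUnion] at hm
  obtain ⟨z, hzt, hzr⟩ := hm
  exact (hN z A g hg hgs p hzr n D hD hli).trans (Finset.le_sup hzt)


theorem fibre_mono {T Z : Scheme.{0}} (s : T ⟶ Spec (CommRingCat.of ℂ)) (f : Z ⟶ T)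
    (t : Spec (CommRingCat.of ℂ) ⟶ T) (ht : t ≫ s = 𝟙 _)
    {A : Type} [CommRing A] [Algebra ℂ A]
    (j : Spec (CommRingCat.of A) ⟶ Limits.pullback f t) (hj : IsOpenImmersion j)
    (hjs : j ≫ Limits.pullback.snd f t = Spec.map (CommRingCat.ofHom (algebraMap ℂ A))) :
    Mono (j ≫ Limits.pullback.fst f t) ∧
      (j ≫ Limits.pullback.fst f t) ≫ (f ≫ s) =
        Spec.map (CommRingCat.ofHom (algebraMap ℂ A)) := by
  haveI : Mono (t ≫ s) := by rw [ht]; infer_instance
  haveI : Mono t := mono_of_mono t s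
  haveI : Mono (Limits.pullback.fst f t) := inferInstance
  haveI : Mono j := inferInstance
  refine ⟨mono_comp _ _, ?_⟩
  calc (j ≫ Limits.pullback.fst f t) ≫ (f ≫ s)
      = j ≫ (Limits.pullback.fst f t ≫ f) ≫ s := by simp only [Category.assoc]
    _ = j ≫ (Limits.pullback.snd f t ≫ t) ≫ s := by rw [Limits.pullback.condition]
    _ = (j ≫ Limits.pullback.snd f t) ≫ (t ≫ s) := by simp only [Category.assoc]
    _ = Spec.map (CommRingCat.ofHom (algebraMap ℂ A)) := by rw [ht, hjs, Category.comp_id]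

end Pool.Agent.Helper293.SD
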