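import Pool.Agent.Helper293.SD.Defs
import Pool.Agent.Helper293.SD.Build2
import Pool.Agent.Helper293.SD.Tan
import Pool.Agent.Helper293.SD.Data

/-!
The special degenerations of `ℙ¹ × ℙ¹` are not bounded.
-/

open CategoryTheory AlgebraicGeometry

noncomputable section

namespace Pool.Agent.Helper293.SD

open Pool.Agent.Helper774.KSing
open Pool.Agent.Helper774.KStab (TorusField)

theorem antican_eq {n : ℕ} {K : Type} [Field K] [Algebra ℂ K] (T : TorusField n K) (D : SData n)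
    (m : ℕ) : (toricVar T D).antican m = Submodule.span ℂ (T.χ '' D.pts m) := by
  ext f
  exact toric_antican T D m f

theorem exists_degeneration {K K' : Type} [Field K] [Algebra ℂ K] [Field K'] [Algebra ℂ K']
    (T : TorusField 2 K) (T' : TorusField 2 K') (DX DY : SData 2)
    (hX : ∀ (m : ℕ) (u : Fin 2 → ℤ), u ∈ DX.pts m ↔ |u 0| ≤ m ∧ |u 1| ≤ m) (N : ℕ)
    (hY : ∀ (m : ℕ) (u : Fin 2 → ℤ), u ∈ DY.pts m ↔ (u 1 ≤ m ∧ u 0 + (2 * N + 2) * u 1 ≤ m ∧
      (2 * N + 4) * u 0 - u 1 ≤ m ∧ -((2 * N + 6) * u 1) - u 0 ≤ m)) :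
    SpecialDegeneration (toricVar T DX) (toricVar T' DY) := by
  obtain ⟨S, hR, hpts, hχ⟩ := exists_frame T.χ T.χ_zero T.χ_add T.li T'.χ T'.χ_zero T'.χ_add T'.li N
  have hX' : ∀ m, (toricVar T DX).antican (1 * m) = S.Rm m := by
    intro m
    rw [one_mul, antican_eq, hR m]
    have : DX.pts m = box m := Set.ext fun u => hX m u
    rw [this]
  have hY' : ∀ m, (toricVar T' DY).antican (1 * m) =
      Submodule.span ℂ (S.χ '' (S.pts m : Set (Fin 2 → ℤ))) := by
    intro m
    rw [one_mul, antican_eq, hχ, hpts m]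
    have : DY.pts m = ypts N m := Set.ext fun u => hY m u
    rw [this]
  refine ⟨1, {
    F := S.F
    le := fun m i => by
      rw [hX' m]
      exact fun f hf => hf.1
    anti := fun m i => S.F_anti m i (i + 1) (by omega)
    top := fun m => by
      obtain ⟨i, hi⟩ := S.F_top m
      exact ⟨i, hi.trans (hX' m).symm⟩
    bot := S.F_bot }, {
    sym := S.sym
    ker := fun m i f hf => S.sym_eq_zero m i f hf
    indep := S.sym_indep
    sup := fun m => (S.sym_sup m).trans (hY' m).symm }, le_refl 1, ?_, ?_, ?_⟩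
  · exact ⟨S.F_one, fun m m' i i' f hf f' hf' => S.F_mul m m' i i' f f' hf hf'⟩
  · obtain ⟨g, hg, hg'⟩ := S.F_fg
    exact ⟨S.n, g, S.d, fun k => S.q k 0, hg, hg'⟩
  · exact fun m m' i i' f hf f' hf' => S.sym_mul m m' i i' f f' hf hf'

/-- In a bounded set of varieties the dimensions of the tangent spaces are bounded. -/
theorem bounded_tangent (S : Set Variety) (hS : IsBounded S) :
    ∃ N₀ : ℕ, ∀ Y ∈ S, ∀ (i : Y.ι) (p : Y.chart i →ₐ[ℂ] ℂ) (n : ℕ)
      (D : Fin n → (Y.chart i →ₗ[ℂ] ℂ)),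
      (∀ k a b, D k (a * b) = p a * D k b + p b * D k a) → LinearIndependent ℂ D → n ≤ N₀ := by
  obtain ⟨T, Z, s, f, hs1, hs2, hf, h⟩ := hS
  have e1 : @LocallyOfFiniteType T (Spec (CommRingCat.of ℂ)) s := hs1
  have e2 : @QuasiCompact T (Spec (CommRingCat.of ℂ)) s := hs2
  have i1 : @LocallyOfFiniteType Z (Spec (CommRingCat.of ℂ)) (f ≫ s) :=
    MorphismProperty.comp_mem _ f s inferInstance e1
  have i2 : @QuasiCompact Z (Spec (CommRingCat.of ℂ)) (f ≫ s) :=
    MorphismProperty.comp_mem _ f s inferInstance e2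
  obtain ⟨N₀, hN⟩ := @bounded_tangent_mono Z (f ≫ s) i1 i2
  refine ⟨N₀, ?_⟩
  intro Y hY i p n D hD hli
  obtain ⟨t, ht, η, j, hj1, hj2, hj3, hj4⟩ := h Y hY
  obtain ⟨h1, h2⟩ := fibre_mono s f t ht (j i) (hj1 i) (hj3 i)
  exact hN (Y.chart i) (j i ≫ Limits.pullback.fst f t) h1 h2 p n D hD hli

/-- The chart of `Y_N` at the singular point of index `2N+5` has a tangent space of dimension at least
`2N+7`. -/
theorem y_tangent {K : Type} [Field K] [Algebra ℂ K] (T : TorusField 2 K) (N : ℕ)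
    (R : Matrix (Fin 2) (Fin 2) ℤ) (hR : R = yR N 1) :
    ∃ (p : cone T R →ₐ[ℂ] ℂ) (D : Fin (2 * N + 7) → (cone T R →ₗ[ℂ] ℂ)),
      (∀ k a b, D k (a * b) = p a * D k b + p b * D k a) ∧ LinearIndependent ℂ D := by
  subst hR
  have hM : ∀ u : Fin 2 → ℤ, u ∈ Mset (yR N 1) 0 ↔
      (0 ≤ u 0 + (2 * N + 6) * u 1 ∧ 0 ≤ -((2 * N + 4) * u 0) + u 1) := by
    intro u
    constructor
    · intro h
      have h0 := h 0
      have h1 := h 1
      simp [Matrix.vecMul, dotProduct, Fin.sum_univ_two, yR] at h0 h1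
      constructor
      · linarith
      · linarith
    · rintro ⟨h0, h1⟩ k
      fin_cases k
      · simp [Matrix.vecMul, dotProduct, Fin.sum_univ_two, yR]
        linarith
      · simp [Matrix.vecMul, dotProduct, Fin.sum_univ_two, yR]
        linarith
  refine cone_der T (yR N 1) ?_ (2 * N + 7) (fun k => -(k : ℤ)) ?_ ?_
  · intro u hu hne
    obtain ⟨h0, h1⟩ := (hM u).1 hu
    by_contra hc
    push Not at hc
    have hc' : u 1 ≤ 0 := by omega
    have hN : (0 : ℤ) ≤ N := Int.natCast_nonneg N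
    have e0 : u 0 ≤ 0 := by
      by_contra h
      push Not at h
      nlinarith
    have e1 : u 1 = 0 := by nlinarith
    have e2 : u 0 = 0 := by
      rw [e1] at h0
      linarith
    apply hne
    ext i
    fin_cases i
    · exact e2
    · exact e1
  · intro k l h
    have h' : -(k : ℤ) = -(l : ℤ) := h
    exact Fin.ext (by omega)
  · intro k
    rw [hM]
    have hk : ((k : ℕ) : ℤ) ≤ 2 * N + 6 := by
      have := k.2
      omega
    have hk0 : (0 : ℤ) ≤ ((k : ℕ) : ℤ) := Int.natCast_nonneg _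
    have hN : (0 : ℤ) ≤ N := Int.natCast_nonneg N
    simp only [Matrix.cons_val_zero, Matrix.cons_val_one]
    constructor
    · linarith
    · nlinarith

/-- The special degenerations of the klt Fano variety `ℙ¹ × ℙ¹` are unbounded. -/
theorem main : ∃ X : Variety, X.dim = 2 ∧ X.IsFano ∧ X.IsKlt ∧
    ¬ IsBounded (centralFibres X) := by
  obtain ⟨K, _, _, ⟨T⟩⟩ := Pool.Agent.Helper774.KStab.exists_torusField 2
  obtain ⟨DX, _, _, hX⟩ := exists_boxData
  refine ⟨toricVar T DX, rfl, toric_isFano T DX, toric_klt T DX, ?_⟩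
  intro hb
  obtain ⟨N₀, hN⟩ := bounded_tangent _ hb
  obtain ⟨DY, e, hYR, hY⟩ := exists_yData N₀
  have hdeg := exists_degeneration T T DX DY hX N₀ hY
  have hmem : toricVar T DY ∈ centralFibres (toricVar T DX) :=
    ⟨toric_isFano T DY, toric_klt T DY, hdeg⟩
  obtain ⟨p, D, hD, hli⟩ := y_tangent T N₀ (DY.R (cast e.symm 1)) (by
    rw [hYR, cast_cast, cast_eq])
  have := hN _ hmem (cast e.symm (1 : Fin 4)) p (2 * N₀ + 7) D hD hli
  omega

end Pool.Agent.Helper293.SD
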